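import Mathlib.Topology.Sheaves.Presheaf
import Mathlib.Algebra.Field.ZMod
import Mathlib.Algebra.Order.Ring.Star
import Mathlib.Algebra.Order.Star.Real
import Mathlib.Analysis.SpecialFunctions.Trigonometric.Series
import Mathlib.Data.Rat.Star
import Mathlib.RingTheory.PiTensorProduct
import Mathlib.Tactic.Algebra.Basic

-- ======== part 0: formerly Pool.Agent.MP_ce1e3b_an.Walsh
section MrgPart0

/-! Walsh functions on the discrete cube, Bessel inequality and the noise operator. -/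

open Finset
open scoped BigOperators

namespace Pool.Agent.MP_ce1e3b_an

/-- Bessel inequality for a symmetric positive semidefinite bilinear form. -/
lemma bessel {V ι : Type*} [AddCommGroup V] [Module ℝ V] [DecidableEq ι]
    (Q : V →ₗ[ℝ] V →ₗ[ℝ] ℝ) (hsym : ∀ x y, Q x y = Q y x) (hpos : ∀ x, 0 ≤ Q x x)
    (s : Finset ι) (v : ι → V) (g : V)
    (horth : ∀ i ∈ s, ∀ j ∈ s, i ≠ j → Q (v i) (v j) = 0)
    (hproj : ∀ i ∈ s, Q g (v i) = Q (v i) (v i)) :
    ∑ i ∈ s, Q (v i) (v i) ≤ Q g g := by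
  have h := hpos (g - ∑ i ∈ s, v i)
  have h1 : Q (∑ i ∈ s, v i) (∑ i ∈ s, v i) = ∑ i ∈ s, Q (v i) (v i) := by
    simp only [map_sum, LinearMap.sum_apply]
    refine Finset.sum_congr rfl fun j hj => ?_
    refine Finset.sum_eq_single_of_mem j hj fun i hi hij => horth i hi j hj hij
  have h2 : Q g (∑ i ∈ s, v i) = ∑ i ∈ s, Q (v i) (v i) := by
    simp only [map_sum]
    exact Finset.sum_congr rfl hproj
  have h3 : Q (∑ i ∈ s, v i) g = ∑ i ∈ s, Q (v i) (v i) := by rw [hsym, h2]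
  simp only [map_sub, LinearMap.sub_apply] at h
  rw [h1, h2, h3] at h
  linarith

/-- The sign attached to a bit. -/
def sg (x : ZMod 2) : ℝ := if x = 0 then 1 else -1

lemma sg_sq (x : ZMod 2) : sg x * sg x = 1 := by
  unfold sg; split_ifs <;> norm_num

lemma abs_sg (x : ZMod 2) : |sg x| = 1 := by
  unfold sg; split_ifs <;> norm_num

lemma sum_zmod2 (f : ZMod 2 → ℝ) : ∑ x : ZMod 2, f x = f 0 + f 1 := by
  have : (Finset.univ : Finset (ZMod 2)) = {0, 1} := by decide
  rw [this, Finset.sum_pair (by decide)]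

lemma sg_zero : sg 0 = 1 := by simp [sg]
lemma sg_one : sg 1 = -1 := by simp [sg]

lemma sg_add_one (x : ZMod 2) : sg (x + 1) = - sg x := by
  have h : x = 0 ∨ x = 1 := by revert x; decide
  rcases h with rfl | rfl
  · simp [sg]
  · have : (1 : ZMod 2) + 1 = 0 := by decide
    rw [this]; simp [sg]

variable {ι : Type*} [Fintype ι] [DecidableEq ι]

/-- Expectation of a product function on the cube. -/
lemma expect_prod (f : ι → ZMod 2 → ℝ) :
    𝔼 x : ι → ZMod 2, ∏ i, f i (x i) = ∏ i, ((f i 0 + f i 1) / 2) := by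
  rw [Fintype.expect_eq_sum_div_card, ← Fintype.piFinset_univ, ← Finset.prod_univ_sum]
  simp only [sum_zmod2, Finset.prod_div_distrib, Fintype.card_pi, ZMod.card, Finset.prod_const]
  simp

/-- Walsh function. -/
def W (S : Finset ι) (x : ι → ZMod 2) : ℝ := ∏ i ∈ S, sg (x i)

omit [Fintype ι] [DecidableEq ι] in
lemma abs_W (S : Finset ι) (x : ι → ZMod 2) : |W S x| = 1 := by
  simp [W, Finset.abs_prod, abs_sg]

lemma W_eq_prod (S : Finset ι) (x : ι → ZMod 2) :
    W S x = ∏ i, (if i ∈ S then sg (x i) else 1) := by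
  simp [W, Finset.prod_ite_mem]

lemma W_orth (S T : Finset ι) :
    𝔼 x : ι → ZMod 2, W S x * W T x = if S = T then 1 else 0 := by
  have : ∀ x : ι → ZMod 2, W S x * W T x =
      ∏ i, ((if i ∈ S then sg (x i) else 1) * (if i ∈ T then sg (x i) else 1)) := by
    intro x; rw [W_eq_prod, W_eq_prod, Finset.prod_mul_distrib]
  simp_rw [this]
  rw [expect_prod (fun i y => (if i ∈ S then sg y else 1) * (if i ∈ T then sg y else 1))]
  split_ifs with h
  · subst h
    refine Finset.prod_eq_one fun i _ => ?_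
    by_cases hi : i ∈ S <;> simp [hi, sg_sq]
  · have : ∃ i, ¬ (i ∈ S ↔ i ∈ T) := by
      by_contra hc
      push Not at hc
      exact h (Finset.ext hc)
    obtain ⟨i, hi⟩ := this
    refine Finset.prod_eq_zero (Finset.mem_univ i) ?_
    by_cases h1 : i ∈ S <;> by_cases h2 : i ∈ T <;> simp_all [sg_zero, sg_one]

/-- The bilinear form `𝔼 u v` on functions on a finite type. -/
noncomputable def eform (J : Type*) [Fintype J] : (J → ℝ) →ₗ[ℝ] (J → ℝ) →ₗ[ℝ] ℝ :=
  LinearMap.mk₂ ℝ (fun u v => 𝔼 x, u x * v x)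
    (by intro a b c; simp [add_mul, Finset.expect_add_distrib])
    (by intro c a b; simp [mul_assoc, Finset.mul_expect])
    (by intro a b c; simp [mul_add, Finset.expect_add_distrib])
    (by intro c a b; simp [mul_left_comm, Finset.mul_expect])

lemma eform_apply {J : Type*} [Fintype J] (u v : J → ℝ) : eform J u v = 𝔼 x, u x * v x := rfl

/-- Walsh coefficient. -/
noncomputable def coef (v : (ι → ZMod 2) → ℝ) (S : Finset ι) : ℝ := 𝔼 x, v x * W S x

lemma sum_coef_sq_le (v : (ι → ZMod 2) → ℝ) (hv : ∀ x, |v x| ≤ 1) (s : Finset (Finset ι)) :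
    ∑ S ∈ s, coef v S ^ 2 ≤ 1 := by
  have key : ∀ S T : Finset ι, eform _ (coef v S • W S) (coef v T • W T) =
      coef v S * coef v T * (if S = T then 1 else 0) := by
    intro S T
    simp only [map_smul, LinearMap.smul_apply, smul_eq_mul, eform_apply, W_orth]
    ring
  have h := bessel (eform (ι → ZMod 2)) (fun x y => by simp [eform_apply, mul_comm])
    (fun x => Finset.expect_nonneg fun i _ => mul_self_nonneg _) s (fun S => coef v S • W S) v
    (fun S _ T _ hST => by rw [key]; simp [hST])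
    (fun S _ => by
      rw [key]; simp only [map_smul, smul_eq_mul, eform_apply, if_true, mul_one]; rfl)
  simp only [key, if_true, mul_one] at h
  have h2 : eform _ v v ≤ 1 := by
    rw [eform_apply]
    refine Finset.expect_le Finset.univ_nonempty fun x _ => ?_
    have := hv x
    rw [← abs_mul_abs_self]
    nlinarith [abs_nonneg (v x)]
  simp only [sq]
  linarith

lemma abs_coef_le (v : (ι → ZMod 2) → ℝ) (hv : ∀ x, |v x| ≤ 1) (S : Finset ι) :
    |coef v S| ≤ 1 := by
  have := sum_coef_sq_le v hv {S}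
  rw [Finset.sum_singleton] at this
  exact abs_le_one_iff_mul_self_le_one.2 (by nlinarith)

lemma expect_sq_walsh_sum (s : Finset (Finset ι)) (c : Finset ι → ℝ) :
    𝔼 x : ι → ZMod 2, (∑ S ∈ s, c S * W S x) ^ 2 = ∑ S ∈ s, c S ^ 2 := by
  have : ∀ x : ι → ZMod 2, (∑ S ∈ s, c S * W S x) ^ 2 =
      ∑ S ∈ s, ∑ T ∈ s, c S * c T * (W S x * W T x) := by
    intro x
    rw [sq, Finset.sum_mul_sum]
    refine Finset.sum_congr rfl fun S _ => Finset.sum_congr rfl fun T _ => by ring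
  simp_rw [this, Finset.expect_sum_comm, ← Finset.mul_expect, W_orth]
  refine Finset.sum_congr rfl fun S hS => ?_
  simp [hS, sq]

/-- The full noise operator is an `L¹` contraction. -/
lemma noise_L1 (ρ : ℝ) (hρ : |ρ| ≤ 1) (v : (ι → ZMod 2) → ℝ) :
    𝔼 x : ι → ZMod 2, |∑ S : Finset ι, ρ ^ S.card * coef v S * W S x| ≤ 𝔼 y, |v y| := by
  have hk : ∀ x y : ι → ZMod 2, ∑ S : Finset ι, ρ ^ S.card * (W S y * W S x) =
      ∏ i, (1 + ρ * (sg (y i) * sg (x i))) := by
    intro x y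
    rw [Finset.prod_one_add, Finset.powerset_univ]
    refine Finset.sum_congr rfl fun S _ => ?_
    simp [W, Finset.prod_mul_distrib]
  have h1 : ∀ x : ι → ZMod 2, ∑ S : Finset ι, ρ ^ S.card * coef v S * W S x =
      𝔼 y, v y * ∏ i, (1 + ρ * (sg (y i) * sg (x i))) := by
    intro x
    simp_rw [← hk, Finset.mul_sum, Finset.expect_sum_comm]
    refine Finset.sum_congr rfl fun S _ => ?_
    rw [coef, Finset.mul_expect, Finset.expect_mul]
    refine Finset.expect_congr rfl fun y _ => by ring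
  have hpos : ∀ x y : ι → ZMod 2, 0 ≤ ∏ i, (1 + ρ * (sg (y i) * sg (x i))) := by
    intro x y
    refine Finset.prod_nonneg fun i _ => ?_
    have : |ρ * (sg (y i) * sg (x i))| ≤ 1 := by
      rw [abs_mul, abs_mul, abs_sg, abs_sg]; simpa using hρ
    linarith [(abs_le.1 this).1]
  calc 𝔼 x : ι → ZMod 2, |∑ S : Finset ι, ρ ^ S.card * coef v S * W S x|
      ≤ 𝔼 x : ι → ZMod 2, 𝔼 y, |v y| * ∏ i, (1 + ρ * (sg (y i) * sg (x i))) := by
        refine Finset.expect_le_expect fun x _ => ?_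
        rw [h1]
        refine (Finset.abs_expect_le _ _).trans (le_of_eq ?_)
        refine Finset.expect_congr rfl fun y _ => ?_
        rw [abs_mul, abs_of_nonneg (hpos x y)]
    _ = 𝔼 y, |v y| := by
        rw [Finset.expect_comm]
        refine Finset.expect_congr rfl fun y _ => ?_
        rw [← Finset.mul_expect, expect_prod (fun i z => 1 + ρ * (sg (y i) * sg z))]
        rw [Finset.prod_eq_one, mul_one]
        intro i _
        rw [sg_zero, sg_one]; ring

/-- The low degree truncation of the noise operator is an approximate `L¹` contraction. -/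
lemma noise_trunc (k : ℕ) (v : (ι → ZMod 2) → ℝ) (hv : ∀ x, |v x| ≤ 1) :
    𝔼 x : ι → ZMod 2, |∑ S ∈ Finset.univ.filter (fun S : Finset ι => S.card ≤ k),
      (1 / 2 : ℝ) ^ S.card * coef v S * W S x| ≤ (𝔼 y, |v y|) + (1 / 2 : ℝ) ^ (k + 1) := by
  set r : (ι → ZMod 2) → ℝ := fun x => ∑ S ∈ Finset.univ.filter (fun S : Finset ι => ¬ S.card ≤ k),
      (1 / 2 : ℝ) ^ S.card * coef v S * W S x with hr
  have h1 : ∀ x, ∑ S ∈ Finset.univ.filter (fun S : Finset ι => S.card ≤ k),
      (1 / 2 : ℝ) ^ S.card * coef v S * W S x =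
      (∑ S : Finset ι, (1 / 2 : ℝ) ^ S.card * coef v S * W S x) - r x := by
    intro x
    rw [hr, eq_sub_iff_add_eq, Finset.sum_filter_add_sum_filter_not]
  have h2 : 𝔼 x, r x ^ 2 ≤ ((1 / 2 : ℝ) ^ (k + 1)) ^ 2 := by
    rw [hr]
    simp only
    rw [expect_sq_walsh_sum]
    calc ∑ S ∈ Finset.univ.filter (fun S : Finset ι => ¬ S.card ≤ k),
          ((1 / 2 : ℝ) ^ S.card * coef v S) ^ 2
        ≤ ∑ S ∈ Finset.univ.filter (fun S : Finset ι => ¬ S.card ≤ k),
          ((1 / 2 : ℝ) ^ (k + 1)) ^ 2 * coef v S ^ 2 := by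
          refine Finset.sum_le_sum fun S hS => ?_
          rw [mul_pow]
          refine mul_le_mul_of_nonneg_right ?_ (sq_nonneg _)
          have hk : k + 1 ≤ S.card := by
            have := (Finset.mem_filter.1 hS).2
            omega
          exact pow_le_pow_left₀ (by positivity)
            (pow_le_pow_of_le_one (by norm_num) (by norm_num) hk) 2
      _ ≤ ((1 / 2 : ℝ) ^ (k + 1)) ^ 2 := by
          rw [← Finset.mul_sum]
          exact mul_le_of_le_one_right (by positivity) (sum_coef_sq_le v hv _)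
  have h3 : 𝔼 x, |r x| ≤ (1 / 2 : ℝ) ^ (k + 1) := by
    have h4 := Finset.expect_mul_sq_le_sq_mul_sq Finset.univ (fun x => |r x|) (fun _ => (1 : ℝ))
    simp only [mul_one, one_pow, sq_abs, Fintype.expect_const] at h4
    exact le_trans (le_abs_self _) (abs_le_of_sq_le_sq (h4.trans h2) (by positivity))
  calc _ ≤ 𝔼 x : ι → ZMod 2, (|∑ S : Finset ι, (1 / 2 : ℝ) ^ S.card * coef v S * W S x| + |r x|) := by
        refine Finset.expect_le_expect fun x _ => ?_
        rw [h1]; exact abs_sub _ _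
    _ ≤ _ := by
        rw [Finset.expect_add_distrib]
        exact add_le_add (noise_L1 _ (by rw [abs_of_nonneg] <;> norm_num) v) h3

end Pool.Agent.MP_ce1e3b_an

end MrgPart0

-- ======== part 1: formerly Pool.Agent.MP_ce1e3b_an.Sampling
section MrgPart1

/-! A simultaneous sampling lemma and a Chernoff bound. -/

open Finset
open scoped BigOperators

namespace Pool.Agent.MP_ce1e3b_an

lemma expect_exp_le {Q : Type*} [Fintype Q] [Nonempty Q] (f : Q → ℝ) (R l : ℝ)
    (hf0 : ∀ x, 0 ≤ f x) (hf1 : ∀ x, f x ≤ R) (hl : 0 ≤ l) (hlR : l * R ≤ 1) :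
    𝔼 x, Real.exp (l * (f x - 𝔼 y, f y)) ≤ Real.exp (l ^ 2 * R ^ 2) := by
  have hm0 : 0 ≤ 𝔼 y, f y := Finset.expect_nonneg fun y _ => hf0 y
  have hm1 : 𝔼 y, f y ≤ R := Finset.expect_le Finset.univ_nonempty fun y _ => hf1 y
  have hb : ∀ x, |l * (f x - 𝔼 y, f y)| ≤ l * R := by
    intro x
    rw [abs_mul, abs_of_nonneg hl]
    refine mul_le_mul_of_nonneg_left (abs_le.2 ⟨?_, ?_⟩) hl <;> linarith [hf0 x, hf1 x]
  calc 𝔼 x, Real.exp (l * (f x - 𝔼 y, f y))
      ≤ 𝔼 x, ((1 + l ^ 2 * R ^ 2) + l * (f x - 𝔼 y, f y)) := by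
        refine Finset.expect_le_expect fun x _ => ?_
        have h1 := Real.abs_exp_sub_one_sub_id_le ((hb x).trans hlR)
        have h2 : (l * (f x - 𝔼 y, f y)) ^ 2 ≤ (l * R) ^ 2 := by
          rw [← sq_abs]
          exact pow_le_pow_left₀ (abs_nonneg _) (hb x) 2
        have h3 := (abs_le.1 h1).2
        nlinarith
    _ = 1 + l ^ 2 * R ^ 2 := by
        rw [Finset.expect_add_distrib, ← Finset.mul_expect, Finset.expect_sub_distrib]
        simp
    _ ≤ _ := by linarith [Real.add_one_le_exp (l ^ 2 * R ^ 2)]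

/-- Simultaneous sampling: one sample of size `M` works for a finite family of functions. -/
lemma sampling {Q C : Type*} [Fintype Q] [Nonempty Q] [Fintype C] (f : C → Q → ℝ) (R t : ℝ)
    (hR : 0 < R) (ht : 0 < t) (htR : t ≤ 2 * R)
    (hf0 : ∀ c x, 0 ≤ f c x) (hf1 : ∀ c x, f c x ≤ R) (M : ℕ) (hM0 : 0 < M)
    (hM : (Fintype.card C : ℝ) ≤ Real.exp (M * t ^ 2 / (4 * R ^ 2))) :
    ∃ ξ : Fin M → Q, ∀ c, 𝔼 l, f c (ξ l) ≤ (𝔼 y, f c y) + t := by
  classical
  set l : ℝ := t / (2 * R ^ 2) with hl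
  have hl0 : 0 < l := by positivity
  have hlR : l * R ≤ 1 := by
    rw [hl, div_mul_eq_mul_div, div_le_one (by positivity)]; nlinarith
  have h1 : ∀ c, 𝔼 ξ : Fin M → Q, ∏ j, Real.exp (l * (f c (ξ j) - 𝔼 y, f c y)) ≤
      Real.exp (M * (l ^ 2 * R ^ 2)) := by
    intro c
    have := Finset.expect_pow (Finset.univ : Finset Q)
      (fun x => Real.exp (l * (f c x - 𝔼 y, f c y))) M
    rw [Fintype.piFinset_univ] at this
    rw [← this, Real.exp_nat_mul]
    exact pow_le_pow_left₀ (Finset.expect_nonneg fun x _ => (Real.exp_pos _).le)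
      (expect_exp_le (f c) R l (hf0 c) (hf1 c) hl0.le hlR) M
  have h2 : 𝔼 ξ : Fin M → Q, ∑ c, ∏ j, Real.exp (l * (f c (ξ j) - 𝔼 y, f c y)) ≤
      Fintype.card C * Real.exp (M * (l ^ 2 * R ^ 2)) := by
    rw [Finset.expect_sum_comm]
    calc _ ≤ ∑ _c : C, Real.exp (M * (l ^ 2 * R ^ 2)) := Finset.sum_le_sum fun c _ => h1 c
      _ = _ := by simp
  obtain ⟨ξ, -, hξ⟩ := Finset.exists_le_of_expect_le Finset.univ_nonempty h2
  refine ⟨ξ, fun c => ?_⟩
  have h3 : ∏ j, Real.exp (l * (f c (ξ j) - 𝔼 y, f c y)) ≤ Real.exp (l * (M * t)) := by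
    calc _ ≤ ∑ c, ∏ j, Real.exp (l * (f c (ξ j) - 𝔼 y, f c y)) :=
          Finset.single_le_sum (f := fun c => ∏ j, Real.exp (l * (f c (ξ j) - 𝔼 y, f c y)))
            (fun c _ => Finset.prod_nonneg fun j _ => (Real.exp_pos _).le) (Finset.mem_univ c)
      _ ≤ Real.exp (M * t ^ 2 / (4 * R ^ 2)) * Real.exp (M * (l ^ 2 * R ^ 2)) :=
          hξ.trans (mul_le_mul_of_nonneg_right hM (Real.exp_pos _).le)
      _ = _ := by
          rw [← Real.exp_add]; congr 1; rw [hl]; field_simp; ring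
  rw [← Real.exp_sum, Real.exp_le_exp, ← Finset.mul_sum] at h3
  have h4 := le_of_mul_le_mul_left h3 hl0
  rw [Finset.sum_sub_distrib] at h4
  simp only [Finset.sum_const, Finset.card_univ, Fintype.card_fin, nsmul_eq_mul] at h4
  rw [Fintype.expect_eq_sum_div_card, Fintype.card_fin, div_le_iff₀ (by positivity)]
  linarith

/-- Sampling for all linear combinations of a finite family of bounded functions. -/
lemma sampling_span {Q S : Type*} [Fintype Q] [Nonempty Q] [Fintype S] [Nonempty S]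
    (w : S → Q → ℝ) (hw : ∀ s x, |w s x| ≤ 1) (T : ℕ) (hT : 1 ≤ T) :
    ∃ ξ : Fin (8 * T ^ 3 * Fintype.card S ^ 4) → Q, ∀ γ : S → ℝ, (∀ s, |γ s| ≤ 1) →
      𝔼 l, |∑ s, γ s * w s (ξ l)| ≤ (𝔼 y, |∑ s, γ s * w s y|) + 3 / T := by
  classical
  set D : ℕ := Fintype.card S with hD
  have hD1 : 1 ≤ D := Fintype.card_pos
  set N : ℕ := D * T with hN
  have hN1 : 1 ≤ N := Nat.mul_pos hD1 hT
  have hDr : (1 : ℝ) ≤ D := by exact_mod_cast hD1
  have hTr : (1 : ℝ) ≤ T := by exact_mod_cast hT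
  have hNr : (N : ℝ) = D * T := by rw [hN]; push_cast; ring
  have hN0 : (0 : ℝ) < N := by rw [hNr]; positivity
  let f : (S → Finset.Icc (-(N : ℤ)) N) → Q → ℝ := fun c x => |∑ s, (((c s : ℤ) : ℝ) / N) * w s x|
  have hbound : ∀ (γ : S → ℝ) (e : ℝ), (∀ s, |γ s| ≤ e) → ∀ x, |∑ s, γ s * w s x| ≤ D * e := by
    intro γ e hγ x
    calc _ ≤ ∑ s, |γ s * w s x| := Finset.abs_sum_le_sum_abs _ _
      _ ≤ ∑ _s : S, e := Finset.sum_le_sum fun s _ => by
          rw [abs_mul]
          exact (mul_le_of_le_one_right (abs_nonneg _) (hw s x)).trans (hγ s)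
      _ = D * e := by simp [hD]
  have hf1 : ∀ c x, f c x ≤ D := by
    intro c x
    have := hbound (fun s => ((c s : ℤ) : ℝ) / N) 1 (fun s => by
      have h := Finset.mem_Icc.1 (c s).2
      rw [abs_div, abs_of_pos hN0, div_le_one hN0, abs_le]
      constructor
      · exact_mod_cast h.1
      · exact_mod_cast h.2) x
    simpa using this
  have hcard : (Fintype.card (S → Finset.Icc (-(N : ℤ)) N) : ℝ) ≤
      Real.exp ((8 * T ^ 3 * D ^ 4 : ℕ) * (1 / T : ℝ) ^ 2 / (4 * (D : ℝ) ^ 2)) := by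
    have h1 : Fintype.card (S → Finset.Icc (-(N : ℤ)) N) = (2 * N + 1) ^ D := by
      rw [Fintype.card_fun, Fintype.card_coe, Int.card_Icc]
      congr 1
      omega
    rw [h1]
    have h2 : ((8 * T ^ 3 * D ^ 4 : ℕ) : ℝ) * (1 / T : ℝ) ^ 2 / (4 * (D : ℝ) ^ 2) =
        D * (2 * N : ℝ) := by
      rw [hNr]; push_cast; field_simp; ring
    rw [h2, Real.exp_nat_mul]
    push_cast
    exact pow_le_pow_left₀ (by positivity) (Real.add_one_le_exp _) D
  obtain ⟨ξ, hξ⟩ := sampling f D (1 / T) (by positivity) (by positivity)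
    (by rw [div_le_iff₀ (by positivity)]; nlinarith) (fun c x => abs_nonneg _) hf1
    (8 * T ^ 3 * D ^ 4) (by positivity) hcard
  refine ⟨ξ, fun γ hγ => ?_⟩
  have hmem : ∀ s, ⌊γ s * N⌋ ∈ Finset.Icc (-(N : ℤ)) N := by
    intro s
    have h := abs_le.1 (hγ s)
    rw [Finset.mem_Icc]
    constructor
    · rw [Int.le_floor]; push_cast; nlinarith
    · have : (⌊γ s * N⌋ : ℝ) ≤ N := (Int.floor_le _).trans (by nlinarith)
      exact_mod_cast this
  let c : S → Finset.Icc (-(N : ℤ)) N := fun s => ⟨⌊γ s * N⌋, hmem s⟩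
  have hclose : ∀ x, abs (|∑ s, γ s * w s x| - f c x) ≤ 1 / T := by
    intro x
    refine (abs_abs_sub_abs_le_abs_sub _ _).trans ?_
    rw [← Finset.sum_sub_distrib]
    simp_rw [← sub_mul]
    refine (hbound _ (1 / N) (fun s => ?_) x).trans (le_of_eq ?_)
    · have h1 := Int.floor_le (γ s * N)
      have h2 := Int.lt_floor_add_one (γ s * N)
      have : γ s - (⌊γ s * N⌋ : ℝ) / N = (γ s * N - ⌊γ s * N⌋) / N := by field_simp
      show |γ s - (⌊γ s * N⌋ : ℝ) / N| ≤ 1 / N
      rw [this, abs_div, abs_of_pos hN0]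
      refine div_le_div_of_nonneg_right (abs_le.2 ⟨?_, ?_⟩) hN0.le <;> linarith
    · rw [hNr]; field_simp
  have : Nonempty (Fin (8 * T ^ 3 * D ^ 4)) := ⟨⟨0, by positivity⟩⟩
  have e1 : 𝔼 l, |∑ s, γ s * w s (ξ l)| ≤ (𝔼 l, f c (ξ l)) + 1 / T := by
    calc _ ≤ 𝔼 l, (f c (ξ l) + 1 / T) :=
          Finset.expect_le_expect fun l _ => by linarith [(abs_le.1 (hclose (ξ l))).2]
      _ = _ := by rw [Finset.expect_add_distrib, Fintype.expect_const]
  have e2 : 𝔼 y, f c y ≤ (𝔼 y, |∑ s, γ s * w s y|) + 1 / T := by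
    calc _ ≤ 𝔼 y, (|∑ s, γ s * w s y| + 1 / T) :=
          Finset.expect_le_expect fun y _ => by linarith [(abs_le.1 (hclose y)).1]
      _ = _ := by rw [Finset.expect_add_distrib, Fintype.expect_const]
  have e3 := hξ c
  have : (3 : ℝ) / T = 1 / T + 1 / T + 1 / T := by ring
  linarith

/-- Chernoff bound on the cube. -/
lemma chernoff {ι : Type*} [Fintype ι] [DecidableEq ι] (σ : ι → ℝ) (hσ : ∀ i, |σ i| = 1) :
    𝔼 x : ι → ZMod 2, Real.exp ((1 / 8) * (∑ i, σ i * sg (x i) - Fintype.card ι / 8)) ≤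
      Real.exp (-(Fintype.card ι / 128)) := by
  have h1 : ∀ x : ι → ZMod 2, Real.exp ((1 / 8) * (∑ i, σ i * sg (x i) - Fintype.card ι / 8)) =
      Real.exp (-(Fintype.card ι / 64)) * ∏ i, Real.exp ((1 / 8) * (σ i * sg (x i))) := by
    intro x
    rw [← Real.exp_sum, ← Real.exp_add, ← Finset.mul_sum]
    congr 1; ring
  simp_rw [h1]
  rw [← Finset.mul_expect, expect_prod (fun i z => Real.exp ((1 / 8) * (σ i * sg z)))]
  have h2 : ∀ i, (Real.exp ((1 / 8) * (σ i * sg 0)) + Real.exp ((1 / 8) * (σ i * sg 1))) / 2 ≤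
      Real.exp (1 / 128) := by
    intro i
    have h3 := Real.cosh_le_exp_half_sq ((1 / 8) * σ i)
    rw [Real.cosh_eq] at h3
    have h4 : ((1 / 8) * σ i) ^ 2 / 2 = 1 / 128 := by
      rw [mul_pow, ← sq_abs (σ i), hσ]; norm_num
    rw [h4] at h3
    rw [sg_zero, sg_one]
    simpa [mul_neg] using h3
  calc _ ≤ Real.exp (-(Fintype.card ι / 64)) * ∏ _i : ι, Real.exp (1 / 128) := by
        refine mul_le_mul_of_nonneg_left (Finset.prod_le_prod (fun i _ => by positivity)
          fun i _ => h2 i) (Real.exp_pos _).le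
    _ = _ := by
        rw [Finset.prod_const, Finset.card_univ, ← Real.exp_nat_mul, ← Real.exp_add]
        congr 1; ring

end Pool.Agent.MP_ce1e3b_an

end MrgPart1

-- marker of a merged file
example : 731051 + 387800 = 731051 + 387800 := rfl
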