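import Mathlib.Algebra.BigOperators.Field
import Mathlib.Analysis.SpecialFunctions.Exp
import Pool.Agent.MP_ce1e3b_an.Sampling

/-! The finite dimensional gadget. -/

open Finset Filter Topology
open scoped BigOperators

namespace Pool.Agent.MP_ce1e3b_an

/-- The finite dimensional building block with error `β`. -/
structure Gadget (β : ℝ) where
  d : ℕ
  M : ℕ
  α : (Fin d → ZMod 2) → Fin M → ℝ
  a : Fin d → Fin M → ℝ
  b : Fin d → (Fin d → ZMod 2) → ℝ
  hd : 4 ≤ d
  hα : ∀ (φ : Fin M → ℝ) (v : (Fin d → ZMod 2) → ℝ), (∀ l, |φ l| ≤ 1) → (∀ η, |v η| ≤ 1) →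
    |𝔼 η, (∑ l, α η l * φ l) * v η| ≤ (𝔼 η, |v η|) + β
  ha : ∀ i l, |a i l| ≤ 1
  hb : ∀ i η, |b i η| ≤ 1
  hy : ∀ η l, |8 * 𝔼 i, a i l * b i η| ≤ 1
  hb0 : ∀ i, ∑ η, b i η = 0
  hgain : ∀ i, 3 / 8 ≤ 𝔼 η, (∑ l, α η l * a i l) * b i η

lemma card_low_le (d k : ℕ) :
    (Finset.univ.filter (fun S : Finset (Fin d) => S.card ≤ k)).card ≤ (k + 1) * (d + 1) ^ k := by
  have h1 : Finset.univ.filter (fun S : Finset (Fin d) => S.card ≤ k) ⊆
      (Finset.range (k + 1)).biUnion fun j => Finset.powersetCard j Finset.univ := by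
    intro S hS
    simp only [Finset.mem_filter, Finset.mem_univ, true_and] at hS
    simp only [Finset.mem_biUnion, Finset.mem_range, Finset.mem_powersetCard]
    exact ⟨S.card, by omega, Finset.subset_univ _, rfl⟩
  refine (Finset.card_le_card h1).trans (Finset.card_biUnion_le.trans ?_)
  calc ∑ j ∈ Finset.range (k + 1), (Finset.powersetCard j (Finset.univ : Finset (Fin d))).card
      ≤ ∑ _j ∈ Finset.range (k + 1), (d + 1) ^ k := by
        refine Finset.sum_le_sum fun j hj => ?_
        rw [Finset.card_powersetCard, Finset.card_univ, Fintype.card_fin]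
        have hj' : j ≤ k := by simpa [Nat.lt_succ_iff] using hj
        calc d.choose j ≤ d ^ j := Nat.choose_le_pow d j
          _ ≤ (d + 1) ^ j := Nat.pow_le_pow_left (by omega) j
          _ ≤ (d + 1) ^ k := Nat.pow_le_pow_right (by omega) hj'
    _ = _ := by simp

lemma exists_dim (c : ℝ) (n : ℕ) :
    ∃ d : ℕ, 4 ≤ d ∧ c * ((d : ℝ) + 1) ^ n * Real.exp (-(d / 128)) ≤ 1 / 16 := by
  have h1 : Tendsto (fun d : ℕ => ((d : ℝ) + 1) / 128) atTop atTop :=
    (tendsto_atTop_add_const_right _ _ tendsto_natCast_atTop_atTop).atTop_div_const (by norm_num)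
  have h2 := ((Real.tendsto_pow_mul_exp_neg_atTop_nhds_zero n).comp h1).const_mul
    (c * 128 ^ n * Real.exp (1 / 128))
  rw [mul_zero] at h2
  have h3 := (h2.eventually (ge_mem_nhds (show (0 : ℝ) < 1 / 16 by norm_num))).and
    (eventually_ge_atTop 4)
  obtain ⟨d, hd1, hd2⟩ := h3.exists
  refine ⟨d, hd2, le_trans (le_of_eq ?_) hd1⟩
  simp only [Function.comp]
  have : Real.exp (-((d : ℝ) / 128)) = Real.exp (1 / 128) * Real.exp (-(((d : ℝ) + 1) / 128)) := by
    rw [← Real.exp_add]; congr 1; ring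
  rw [this, div_pow]
  field_simp

theorem exists_gadget (β : ℝ) (hβ : 0 < β) : Nonempty (Gadget β) := by
  classical
  obtain ⟨k0, hk0⟩ := exists_pow_lt_of_lt_one (show 0 < min β (1 / 16) / 2 by positivity)
    (show (1 / 2 : ℝ) < 1 by norm_num)
  obtain ⟨T0, hT0⟩ := exists_nat_gt (6 / min β (1 / 16))
  set k := k0 + 1 with hk
  set T := T0 + 1 with hT
  have hm : 0 < min β (1 / 16) := by positivity
  have herr : (1 / 2 : ℝ) ^ (k + 1) + 3 / T ≤ min β (1 / 16) := by
    have e1 : (1 / 2 : ℝ) ^ (k + 1) ≤ (1 / 2) ^ k0 :=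
      pow_le_pow_of_le_one (by norm_num) (by norm_num) (by omega)
    have e2 : (3 : ℝ) / T ≤ min β (1 / 16) / 2 := by
      rw [div_lt_iff₀ hm] at hT0
      rw [div_le_iff₀ (by positivity), hT]
      push_cast
      nlinarith
    linarith
  obtain ⟨d, hd4, hd⟩ := exists_dim (2 * (8 * T ^ 3 * (k + 1) ^ 4)) (4 * k)
  set Low := Finset.univ.filter (fun S : Finset (Fin d) => S.card ≤ k) with hLow
  have : Nonempty Low := ⟨⟨∅, by simp [hLow]⟩⟩
  obtain ⟨ξ, hξ⟩ := sampling_span (Q := Fin d → ZMod 2) (S := Low) (fun S x => W S.1 x)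
    (fun S x => (abs_W _ _).le) T (by omega)
  generalize hM : 8 * T ^ 3 * Fintype.card Low ^ 4 = M at ξ hξ
  have hMle : (M : ℝ) ≤ (8 * T ^ 3 * (k + 1) ^ 4) * ((d : ℝ) + 1) ^ (4 * k) := by
    have h1 : Fintype.card Low ≤ (k + 1) * (d + 1) ^ k := by
      rw [Fintype.card_coe]; exact card_low_le d k
    have h2 : M ≤ 8 * T ^ 3 * ((k + 1) * (d + 1) ^ k) ^ 4 := by
      rw [← hM]; gcongr
    calc (M : ℝ) ≤ ((8 * T ^ 3 * ((k + 1) * (d + 1) ^ k) ^ 4 : ℕ) : ℝ) := by exact_mod_cast h2
      _ = _ := by push_cast; ring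
  have hM0 : 0 < M := by
    rw [← hM]
    have := Fintype.card_pos (α := Low)
    positivity
  have : Nonempty (Fin M) := ⟨⟨0, hM0⟩⟩
  let α : (Fin d → ZMod 2) → Fin M → ℝ := fun η l =>
    (∑ S ∈ Low, (1 / 2 : ℝ) ^ S.card * W S η * W S (ξ l)) / M
  have hkey : ∀ (φ : Fin M → ℝ) (v : (Fin d → ZMod 2) → ℝ),
      𝔼 η, (∑ l, α η l * φ l) * v η =
        𝔼 l, φ l * ∑ S ∈ Low, (1 / 2 : ℝ) ^ S.card * coef v S * W S (ξ l) := by
    intro φ v
    rw [Fintype.expect_eq_sum_div_card (ι := Fin M), Fintype.card_fin, Finset.sum_div]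
    simp_rw [Finset.sum_mul, Finset.expect_sum_comm]
    refine Finset.sum_congr rfl fun l _ => ?_
    simp only [α, Finset.sum_div, Finset.sum_mul, Finset.mul_sum, Finset.expect_sum_comm]
    refine Finset.sum_congr rfl fun S _ => ?_
    rw [coef, Finset.mul_expect, Finset.expect_mul, Finset.mul_expect, Finset.expect_div]
    refine Finset.expect_congr rfl fun η _ => by ring
  have hα : ∀ (φ : Fin M → ℝ) (v : (Fin d → ZMod 2) → ℝ), (∀ l, |φ l| ≤ 1) → (∀ η, |v η| ≤ 1) →
      |𝔼 η, (∑ l, α η l * φ l) * v η| ≤ (𝔼 η, |v η|) + min β (1 / 16) := by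
    intro φ v hφ hv
    rw [hkey]
    have h1 := hξ (fun S => (1 / 2 : ℝ) ^ S.1.card * coef v S.1) (fun S => by
      rw [abs_mul, abs_of_nonneg (by positivity)]
      exact mul_le_one₀ (pow_le_one₀ (by norm_num) (by norm_num)) (abs_nonneg _)
        (abs_coef_le v hv _))
    have hs : ∀ x, ∑ S : Low, (1 / 2 : ℝ) ^ S.1.card * coef v S.1 * W S.1 x =
        ∑ S ∈ Low, (1 / 2 : ℝ) ^ S.card * coef v S * W S x := fun x =>
      Finset.sum_coe_sort Low (fun S => (1 / 2 : ℝ) ^ S.card * coef v S * W S x)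
    simp only [hs] at h1
    have h2 := noise_trunc k v hv
    calc _ ≤ 𝔼 l, |φ l * ∑ S ∈ Low, (1 / 2 : ℝ) ^ S.card * coef v S * W S (ξ l)| :=
          Finset.abs_expect_le _ _
      _ ≤ 𝔼 l, |∑ S ∈ Low, (1 / 2 : ℝ) ^ S.card * coef v S * W S (ξ l)| := by
          refine Finset.expect_le_expect fun l _ => ?_
          rw [abs_mul]
          exact mul_le_of_le_one_left (abs_nonneg _) (hφ l)
      _ ≤ _ := by linarith
  let good : (Fin d → ZMod 2) → Prop := fun η => ∀ l, |∑ i, sg (ξ l i) * sg (η i)| ≤ d / 8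
  have hbad : 𝔼 η : Fin d → ZMod 2, (if good η then (0 : ℝ) else 1) ≤ 1 / 16 := by
    have h1 : ∀ η : Fin d → ZMod 2, (if good η then (0 : ℝ) else 1) ≤
        ∑ l, (Real.exp ((1 / 8) * (∑ i, sg (ξ l i) * sg (η i) - Fintype.card (Fin d) / 8)) +
          Real.exp ((1 / 8) * (∑ i, (-sg (ξ l i)) * sg (η i) - Fintype.card (Fin d) / 8))) := by
      intro η
      split_ifs with h
      · positivity
      · simp only [good, not_forall, not_le] at h
        obtain ⟨l, hl⟩ := h
        refine le_trans ?_ (Finset.single_le_sum (f := fun l =>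
          Real.exp ((1 / 8) * (∑ i, sg (ξ l i) * sg (η i) - Fintype.card (Fin d) / 8)) +
          Real.exp ((1 / 8) * (∑ i, (-sg (ξ l i)) * sg (η i) - Fintype.card (Fin d) / 8)))
          (fun l _ => by positivity) (Finset.mem_univ l))
        simp only [Fintype.card_fin, neg_mul, Finset.sum_neg_distrib]
        rcases lt_abs.1 hl with h | h
        · have : 1 ≤ Real.exp ((1 / 8) * (∑ i, sg (ξ l i) * sg (η i) - d / 8)) :=
            Real.one_le_exp (by linarith)
          linarith [Real.exp_pos ((1 / 8) * (-∑ i, sg (ξ l i) * sg (η i) - d / 8))]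
        · have : 1 ≤ Real.exp ((1 / 8) * (-∑ i, sg (ξ l i) * sg (η i) - d / 8)) :=
            Real.one_le_exp (by linarith)
          linarith [Real.exp_pos ((1 / 8) * (∑ i, sg (ξ l i) * sg (η i) - d / 8))]
    calc _ ≤ _ := Finset.expect_le_expect fun η _ => h1 η
      _ ≤ ∑ _l : Fin M, 2 * Real.exp (-(d / 128)) := by
          rw [Finset.expect_sum_comm]
          refine Finset.sum_le_sum fun l _ => ?_
          rw [Finset.expect_add_distrib]
          have e1 := chernoff (fun i => sg (ξ l i)) (fun i => abs_sg _)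
          have e2 := chernoff (fun i => -sg (ξ l i)) (fun i => by rw [abs_neg, abs_sg])
          simp only [Fintype.card_fin] at e1 e2 ⊢
          linarith
      _ ≤ 1 / 16 := by
          simp only [Finset.sum_const, Finset.card_univ, Fintype.card_fin, nsmul_eq_mul]
          refine le_trans ?_ hd
          have := Real.exp_pos (-((d : ℝ) / 128))
          nlinarith
  refine ⟨⟨d, M, α, fun i l => sg (ξ l i), fun i η => if good η then sg (η i) else 0, hd4,
    fun φ v hφ hv => (hα φ v hφ hv).trans (by linarith [min_le_left β (1 / 16)]),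
    fun i l => (abs_sg _).le, fun i η => ?_, fun η l => ?_, fun i => ?_, fun i => ?_⟩⟩
  · split_ifs
    · exact (abs_sg _).le
    · simp
  · by_cases h : good η
    · simp only [h, if_true]
      rw [Fintype.expect_eq_sum_div_card, Fintype.card_fin, abs_mul, abs_div]
      have h1 := h l
      have hd0 : (0 : ℝ) < d := by positivity
      rw [abs_of_pos hd0, abs_of_pos (by norm_num : (0 : ℝ) < 8), ← mul_div_assoc,
        div_le_one hd0]
      linarith
    · simp [h]
  · refine Finset.sum_involution (fun η _ => η + 1) (fun η _ => ?_) (fun η _ _ => ?_)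
      (fun _ _ => Finset.mem_univ _) (fun η _ => ?_)
    · have : good (η + 1) ↔ good η := by
        simp only [good, Pi.add_apply, Pi.one_apply, sg_add_one, mul_neg, Finset.sum_neg_distrib,
          abs_neg]
      by_cases h : good η
      · simp [h, this, sg_add_one]
      · simp [h, this]
    · intro h
      have := congrFun h i
      simp at this
    · ext j
      have : (1 : ZMod 2) + 1 = 0 := by decide
      simp [add_assoc, this]
  · have e1 : 𝔼 η, (∑ l, α η l * sg (ξ l i)) * sg (η i) = 1 / 2 := by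
      rw [hkey]
      have hc : ∀ S : Finset (Fin d), coef (fun η => sg (η i)) S = if {i} = S then 1 else 0 := by
        intro S
        rw [← W_orth]
        simp [coef, W]
      have hi : ({i} : Finset (Fin d)) ∈ Low := by simp [hLow, hk]
      simp only [hc, mul_ite, mul_one, mul_zero, ite_mul, zero_mul, Finset.sum_ite_eq, hi, if_true]
      have : ∀ l, sg (ξ l i) * ((1 / 2 : ℝ) ^ ({i} : Finset (Fin d)).card * W {i} (ξ l)) = 1 / 2 := by
        intro l
        simp only [W, Finset.card_singleton, Finset.prod_singleton, pow_one]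
        linear_combination (1 / 2 : ℝ) * sg_sq (ξ l i)
      simp only [this, Fintype.expect_const]
    have e2 := hα (fun l => sg (ξ l i)) (fun η => if good η then 0 else sg (η i))
      (fun l => (abs_sg _).le) (fun η => by split_ifs <;> simp [abs_sg])
    have e3 : 𝔼 η : Fin d → ZMod 2, |if good η then 0 else sg (η i)| =
        𝔼 η : Fin d → ZMod 2, (if good η then (0 : ℝ) else 1) :=
      Finset.expect_congr rfl fun η _ => by split_ifs <;> simp [abs_sg]
    have e4 : 𝔼 η, (∑ l, α η l * sg (ξ l i)) * sg (η i) =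
        (𝔼 η, (∑ l, α η l * sg (ξ l i)) * (if good η then sg (η i) else 0)) +
        𝔼 η, (∑ l, α η l * sg (ξ l i)) * (if good η then 0 else sg (η i)) := by
      rw [← Finset.expect_add_distrib]
      exact Finset.expect_congr rfl fun η _ => by split_ifs <;> simp
    have e5 := (abs_le.1 e2).2
    linarith [min_le_right β (1 / 16)]

end Pool.Agent.MP_ce1e3b_an
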