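import Mathlib.LinearAlgebra.BilinearForm.Basic
import Mathlib.Topology.ContinuousMap.Compact
import Mathlib.Analysis.InnerProductSpace.Basic
import Mathlib.Algebra.Order.Archimedean.Real.Hom
import Pool.Agent.MP_ce1e3b_an.Gadget

/-! Generalities on trilinear forms. -/

open Finset
open scoped BigOperators

namespace Pool.Agent.MP_ce1e3b_an

/-- Curried trilinear forms. -/
abbrev Tri (X : Type*) [AddCommGroup X] [Module ℝ X] := X →ₗ[ℝ] X →ₗ[ℝ] X →ₗ[ℝ] ℝ

/-- Build a curried trilinear form from a function. -/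
def mk₃ {X : Type*} [AddCommGroup X] [Module ℝ X] (f : X → X → X → ℝ)
    (a1 : ∀ x x' y z, f (x + x') y z = f x y z + f x' y z)
    (s1 : ∀ (c : ℝ) x y z, f (c • x) y z = c * f x y z)
    (a2 : ∀ x y y' z, f x (y + y') z = f x y z + f x y' z)
    (s2 : ∀ (c : ℝ) x y z, f x (c • y) z = c * f x y z)
    (a3 : ∀ x y z z', f x y (z + z') = f x y z + f x y z')
    (s3 : ∀ (c : ℝ) x y z, f x y (c • z) = c * f x y z) : Tri X where
  toFun x := LinearMap.mk₂ ℝ (f x) (a2 x) (fun c y z => s2 c x y z) (a3 x) (fun c y z => s3 c x y z)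
  map_add' x x' := by ext y z; simp [a1]
  map_smul' c x := by ext y z; simp [s1]

@[simp] lemma mk₃_apply {X : Type*} [AddCommGroup X] [Module ℝ X] (f : X → X → X → ℝ)
    (a1 s1 a2 s2 a3 s3) (x y z : X) : mk₃ f a1 s1 a2 s2 a3 s3 x y z = f x y z := rfl

section
variable {X : Type*} [NormedAddCommGroup X] [NormedSpace ℝ X]

/-- `c` is a bound for the trilinear form `B`. -/
def Bdd (B : Tri X) (c : ℝ) : Prop := ∀ x y z, |B x y z| ≤ c * ‖x‖ * ‖y‖ * ‖z‖

lemma exists_unit (x : X) : ∃ u : X, ‖u‖ ≤ 1 ∧ x = ‖x‖ • u := by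
  by_cases h : x = 0
  · exact ⟨0, by simp, by simp [h]⟩
  · have h0 : ‖x‖ ≠ 0 := norm_ne_zero_iff.2 h
    refine ⟨‖x‖⁻¹ • x, ?_, ?_⟩
    · rw [norm_smul, norm_inv, norm_norm, inv_mul_cancel₀ h0]
    · rw [smul_smul, mul_inv_cancel₀ h0, one_smul]

lemma sum_abs_hom (T : ℕ → Tri X) (s : Finset ℕ) (c : ℝ)
    (h : ∀ x y z, ‖x‖ ≤ 1 → ‖y‖ ≤ 1 → ‖z‖ ≤ 1 → ∑ n ∈ s, |T n x y z| ≤ c) (x y z : X) :
    ∑ n ∈ s, |T n x y z| ≤ c * ‖x‖ * ‖y‖ * ‖z‖ := by
  obtain ⟨u, hu, hx⟩ := exists_unit x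
  obtain ⟨v, hv, hy⟩ := exists_unit y
  obtain ⟨w, hw, hz⟩ := exists_unit z
  have key : ∀ n, |T n x y z| = ‖x‖ * ‖y‖ * ‖z‖ * |T n u v w| := by
    intro n
    conv_lhs => rw [hx, hy, hz]
    simp only [map_smul, LinearMap.smul_apply, smul_eq_mul, abs_mul, abs_norm]
    ring
  simp_rw [key]
  rw [← Finset.mul_sum]
  calc _ ≤ ‖x‖ * ‖y‖ * ‖z‖ * c := mul_le_mul_of_nonneg_left (h u v w hu hv hw) (by positivity)
    _ = _ := by ring

lemma bdd_of_unit (B : Tri X) (c : ℝ)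
    (h : ∀ x y z, ‖x‖ ≤ 1 → ‖y‖ ≤ 1 → ‖z‖ ≤ 1 → |B x y z| ≤ c) : Bdd B c := by
  intro x y z
  have := sum_abs_hom (fun _ => B) {0} c (by simpa using h) x y z
  simpa using this

lemma Bdd.le_mul {B : Tri X} {c : ℝ} (h : Bdd B c) (hc : 0 ≤ c) {x y z : X} {a b d : ℝ}
    (hx : ‖x‖ ≤ a) (hy : ‖y‖ ≤ b) (hz : ‖z‖ ≤ d) : |B x y z| ≤ c * a * b * d := by
  refine (h x y z).trans ?_
  have := norm_nonneg x
  have := norm_nonneg y
  have := norm_nonneg z
  have : 0 ≤ a := by linarith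
  have : 0 ≤ b := by linarith
  gcongr

/-- Perturbation in the last two variables. -/
lemma Bdd.perturb {B : Tri X} {c δ : ℝ} (h : Bdd B c) (hc : 0 ≤ c) {x y z y' z' : X}
    (hx : ‖x‖ ≤ 1) (hy : ‖y‖ ≤ 1) (hz' : ‖z'‖ ≤ 1) (hyy : ‖y' - y‖ ≤ δ) (hzz : ‖z' - z‖ ≤ δ) :
    B x y' z' - 2 * c * δ ≤ B x y z := by
  have e : B x y' z' - B x y z = B x (y' - y) z' + B x y (z' - z) := by
    simp only [map_sub, LinearMap.sub_apply]; ring
  have h1 := (abs_le.1 (h.le_mul hc hx hyy hz')).2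
  have h2 := (abs_le.1 (h.le_mul hc hx hy hzz)).2
  linarith

end

section
variable {K J : Type*} [TopologicalSpace K] [TopologicalSpace J] [DiscreteTopology J]

/-- Functions of a discrete coordinate. -/
def lift (π : C(K, J)) : (J → ℝ) →ₗ[ℝ] C(K, ℝ) where
  toFun ψ := ⟨fun x => ψ (π x), continuous_of_discreteTopology.comp π.continuous⟩
  map_add' _ _ := rfl
  map_smul' _ _ := rfl

@[simp] lemma lift_apply (π : C(K, J)) (ψ : J → ℝ) (x : K) : lift π ψ x = ψ (π x) := rfl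

lemma lift_mul (π : C(K, J)) (ψ ψ' : J → ℝ) : lift π ψ * lift π ψ' = lift π (ψ * ψ') := rfl

lemma lift_one (π : C(K, J)) : lift π 1 = 1 := rfl

variable [Fintype J] [DecidableEq J]

lemma lift_eq_sum (π : C(K, J)) (ψ : J → ℝ) :
    lift π ψ = ∑ η, ψ η • lift π (Pi.single η 1) := by
  ext x
  simp [ContinuousMap.sum_apply, Pi.single_apply]

variable [CompactSpace K]

omit [Fintype J] [DecidableEq J] in
lemma norm_mul_lift_le (π : C(K, J)) (ψ : J → ℝ) (hψ : ∀ η, |ψ η| ≤ 1) (g : C(K, ℝ)) :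
    ‖g * lift π ψ‖ ≤ ‖g‖ := by
  refine (ContinuousMap.norm_le _ (norm_nonneg _)).2 fun x => ?_
  simp only [ContinuousMap.mul_apply, lift_apply, norm_mul]
  exact (mul_le_of_le_one_right (norm_nonneg _) (hψ _)).trans (g.norm_coe_le_norm x)

/-- The diagonal part of a trilinear form with respect to a finite clopen partition. -/
noncomputable def diag (π : C(K, J)) (B : Tri C(K, ℝ)) : Tri C(K, ℝ) :=
  mk₃ (fun F g h => ∑ η, B F (g * lift π (Pi.single η 1)) (h * lift π (Pi.single η 1)))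
    (by intros; simp [Finset.sum_add_distrib])
    (by intros; simp [Finset.mul_sum])
    (by intros; simp [add_mul, Finset.sum_add_distrib])
    (by intros; simp [Finset.mul_sum])
    (by intros; simp [add_mul, Finset.sum_add_distrib])
    (by intros; simp [Finset.mul_sum])

omit [CompactSpace K] in
lemma diag_apply (π : C(K, J)) (B : Tri C(K, ℝ)) (F g h : C(K, ℝ)) : diag π B F g h =
    ∑ η, B F (g * lift π (Pi.single η 1)) (h * lift π (Pi.single η 1)) := rfl

lemma Bdd.diag (π : C(K, J)) {B : Tri C(K, ℝ)} {c : ℝ} (hB : Bdd B c) (hc : 0 ≤ c) :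
    Bdd (diag π B) c := by
  intro F g h
  have key : MP_ce1e3b_an.diag π B F g h =
      𝔼 ε : J → ZMod 2, B F (g * lift π (fun η => sg (ε η))) (h * lift π (fun η => sg (ε η))) := by
    have : ∀ ε : J → ZMod 2,
        B F (g * lift π (fun η => sg (ε η))) (h * lift π (fun η => sg (ε η))) =
        ∑ η, ∑ η', (W {η'} ε * W {η} ε) *
          B F (g * lift π (Pi.single η' 1)) (h * lift π (Pi.single η 1)) := by
      intro ε
      rw [lift_eq_sum π (fun η => sg (ε η))]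
      simp only [Finset.mul_sum, map_sum, LinearMap.sum_apply, mul_smul_comm, map_smul,
        LinearMap.smul_apply, smul_eq_mul, W, Finset.prod_singleton]
      refine Finset.sum_congr rfl fun η _ => Finset.sum_congr rfl fun η' _ => by ring
    simp_rw [this, Finset.expect_sum_comm, ← Finset.expect_mul, W_orth]
    simp [diag_apply]
  rw [key]
  refine (Finset.abs_expect_le _ _).trans (Finset.expect_le Finset.univ_nonempty fun ε _ => ?_)
  exact hB.le_mul hc le_rfl (norm_mul_lift_le π _ (fun η => (abs_sg _).le) g)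
    (norm_mul_lift_le π _ (fun η => (abs_sg _).le) h)

end

end Pool.Agent.MP_ce1e3b_an
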