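import Pool.Agent.MP_ce1e3b_an.Setup

/-! The trilinear form and its basic estimates. -/

open Finset Filter
open scoped BigOperators

namespace Pool.Agent.MP_ce1e3b_an

namespace Setup

variable {K : Type} [TopologicalSpace K] [CompactSpace K] {β : ℕ → ℝ} {G : ∀ n, Gadget (β n)}
  (S : Setup K β G)

/-- The operator of the gadget of level `n`, applied to the values of `F` on block `n`. -/
noncomputable def op (n : ℕ) : C(K, ℝ) →ₗ[ℝ] ((G n).J → ℝ) where
  toFun F η := ∑ l, (G n).α η l * F (S.p n l)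
  map_add' F F' := by ext η; simp [mul_add, Finset.sum_add_distrib]
  map_smul' c F := by ext η; simp [Finset.mul_sum, mul_left_comm]

lemma op_apply (n : ℕ) (F : C(K, ℝ)) (η : (G n).J) :
    S.op n F η = ∑ l, (G n).α η l * F (S.p n l) := rfl

/-- The form of level `n`. -/
noncomputable def T (n : ℕ) : Tri C(K, ℝ) :=
  mk₃ (fun F g h => 𝔼 η, S.op n F η * (S.dev n g η * S.dev n h η))
    (by intros; simp [add_mul, Finset.expect_add_distrib])
    (by intros; simp [Finset.mul_expect, mul_assoc])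
    (by intros; simp [add_mul, mul_add, Finset.expect_add_distrib])
    (by intros; simp [Finset.mul_expect, mul_assoc, mul_left_comm])
    (by intros; simp [mul_add, Finset.expect_add_distrib])
    (by intros; simp [Finset.mul_expect, mul_left_comm])

lemma T_apply (n : ℕ) (F g h : C(K, ℝ)) :
    S.T n F g h = 𝔼 η, S.op n F η * (S.dev n g η * S.dev n h η) := rfl

lemma abs_T_le (n : ℕ) {F g h : C(K, ℝ)} (hF : ‖F‖ ≤ 1) (hg : ‖g‖ ≤ 1) (hh : ‖h‖ ≤ 1) :
    |S.T n F g h| ≤ ((𝔼 η, S.dev n g η ^ 2) + 𝔼 η, S.dev n h η ^ 2) / 2 + 4 * β n := by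
  have h1 := (G n).hα (fun l => F (S.p n l)) (fun η => S.dev n g η * S.dev n h η / 4)
    (fun l => (F.norm_coe_le_norm _).trans hF) (fun η => by
      have e1 := S.abs_dev_le n g η
      have e2 := S.abs_dev_le n h η
      rw [abs_div, abs_mul, abs_of_pos (by norm_num : (0 : ℝ) < 4), div_le_one (by norm_num)]
      calc _ ≤ 2 * 2 := mul_le_mul (by linarith) (by linarith) (abs_nonneg _) (by norm_num)
        _ = (4 : ℝ) := by norm_num)
  have h2 : S.T n F g h = 4 * 𝔼 η, (∑ l, (G n).α η l * F (S.p n l)) *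
      (S.dev n g η * S.dev n h η / 4) := by
    rw [T_apply, Finset.mul_expect]
    exact Finset.expect_congr rfl fun η _ => by rw [op_apply]; ring
  have h3 : 𝔼 η, |S.dev n g η * S.dev n h η / 4| ≤
      ((𝔼 η, S.dev n g η ^ 2) + 𝔼 η, S.dev n h η ^ 2) / 8 := by
    rw [← Finset.expect_add_distrib, Finset.expect_div]
    refine Finset.expect_le_expect fun η _ => abs_le.2 ⟨?_, ?_⟩
    · nlinarith [sq_nonneg (S.dev n g η + S.dev n h η)]
    · nlinarith [sq_nonneg (S.dev n g η - S.dev n h η)]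
  rw [h2, abs_mul, abs_of_pos (by norm_num : (0 : ℝ) < 4)]
  linarith

variable (hβ : ∀ s : Finset ℕ, ∑ n ∈ s, β n ≤ 1 / 1000)
include hβ

lemma sum_abs_T_le (s : Finset ℕ) {F g h : C(K, ℝ)} (hF : ‖F‖ ≤ 1) (hg : ‖g‖ ≤ 1)
    (hh : ‖h‖ ≤ 1) : ∑ n ∈ s, |S.T n F g h| ≤ 1 - |S.E g * S.E h| + 4 / 1000 := by
  have h1 := S.bessel_dev s g
  have h2 := S.bessel_dev s h
  have h3 : ‖g‖ ^ 2 ≤ 1 := pow_le_one₀ (norm_nonneg _) hg
  have h4 : ‖h‖ ^ 2 ≤ 1 := pow_le_one₀ (norm_nonneg _) hh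
  have h5 : |S.E g * S.E h| ≤ (S.E g ^ 2 + S.E h ^ 2) / 2 := by
    refine abs_le.2 ⟨?_, ?_⟩
    · nlinarith [sq_nonneg (S.E g + S.E h)]
    · nlinarith [sq_nonneg (S.E g - S.E h)]
  have h6 := Finset.sum_le_sum fun n (_ : n ∈ s) => S.abs_T_le n hF hg hh
  rw [Finset.sum_add_distrib, ← Finset.sum_div, Finset.sum_add_distrib, ← Finset.mul_sum] at h6
  linarith [hβ s]

lemma summable_T (F g h : C(K, ℝ)) : Summable fun n => S.T n F g h := by
  refine Summable.of_abs (summable_of_sum_le (c := 2 * ‖F‖ * ‖g‖ * ‖h‖)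
    (fun n => abs_nonneg _) fun s => ?_)
  refine sum_abs_hom S.T s 2 (fun x y z hx hy hz => ?_) F g h
  linarith [S.sum_abs_T_le hβ s hx hy hz, abs_nonneg (S.E y * S.E z)]

lemma abs_tsum_T_le {F g h : C(K, ℝ)} (hF : ‖F‖ ≤ 1) (hg : ‖g‖ ≤ 1) (hh : ‖h‖ ≤ 1) :
    |∑' n, S.T n F g h| ≤ 1 - |S.E g * S.E h| + 4 / 1000 := by
  have h1 := (S.summable_T hβ F g h).abs
  calc _ ≤ ∑' n, |S.T n F g h| := by
        simpa [Real.norm_eq_abs] using norm_tsum_le_tsum_norm (f := fun n => S.T n F g h)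
          (by simpa [Real.norm_eq_abs] using h1)
    _ ≤ _ := h1.tsum_le_of_sum_le fun s => S.sum_abs_T_le hβ s hF hg hh

/-- The trilinear form that cannot be approximated. -/
noncomputable def A : Tri C(K, ℝ) :=
  mk₃ (fun F g h => S.lam F * (S.E g * S.E h) + 1 / 2 * ∑' n, S.T n F g h)
    (by
      intro x x' y z
      simp only [map_add, LinearMap.add_apply]
      rw [(S.summable_T hβ x y z).tsum_add (S.summable_T hβ x' y z)]; ring)
    (by
      intro c x y z
      simp only [map_smul, LinearMap.smul_apply, smul_eq_mul, tsum_mul_left]; ring)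
    (by
      intro x y y' z
      simp only [map_add, LinearMap.add_apply]
      rw [(S.summable_T hβ x y z).tsum_add (S.summable_T hβ x y' z)]; ring)
    (by
      intro c x y z
      simp only [map_smul, LinearMap.smul_apply, smul_eq_mul, tsum_mul_left]; ring)
    (by
      intro x y z z'
      simp only [map_add]
      rw [(S.summable_T hβ x y z).tsum_add (S.summable_T hβ x y z')]; ring)
    (by
      intro c x y z
      simp only [map_smul, smul_eq_mul, tsum_mul_left]; ring)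

lemma A_apply (F g h : C(K, ℝ)) :
    S.A hβ F g h = S.lam F * (S.E g * S.E h) + 1 / 2 * ∑' n, S.T n F g h := rfl

lemma bdd_A : Bdd (S.A hβ) (1002 / 1000) := by
  refine bdd_of_unit _ _ fun F g h hF hg hh => ?_
  rw [A_apply]
  have h1 := S.abs_tsum_T_le hβ hF hg hh
  have h2 : |S.lam F * (S.E g * S.E h)| ≤ |S.E g * S.E h| := by
    rw [abs_mul]
    exact mul_le_of_le_one_left (abs_nonneg _) ((S.lam_le F).trans hF)
  have h3 : |S.E g * S.E h| ≤ 1 := by
    rw [abs_mul]
    exact mul_le_one₀ ((S.abs_E_le g).trans hg) (abs_nonneg _) ((S.abs_E_le h).trans hh)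
  refine (abs_add_le _ _).trans ?_
  rw [abs_mul (1 / 2 : ℝ), abs_of_pos (by norm_num : (0 : ℝ) < 1 / 2)]
  linarith

lemma A_F0 : S.A hβ S.F0 1 1 = 1 := by
  simp [A_apply, T_apply, S.lam_F0, S.E_one, S.dev_inv (S.inv_one _)]

/-- Near maximizers. -/
lemma near_max {F g h : C(K, ℝ)} (hF : ‖F‖ ≤ 1) (hg : ‖g‖ ≤ 1) (hh : ‖h‖ ≤ 1)
    (hA : 1 - 2 / 1000 ≤ S.A hβ F g h) :
    992 / 1000 ≤ |S.E g * S.E h| ∧ 1 / 2 < |S.lam F| := by
  rw [A_apply] at hA
  have h1 := (abs_le.1 (S.abs_tsum_T_le hβ hF hg hh)).2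
  have h2 : S.lam F * (S.E g * S.E h) ≤ |S.lam F| * |S.E g * S.E h| := by
    rw [← abs_mul]; exact le_abs_self _
  have h3 : |S.E g * S.E h| ≤ 1 := by
    rw [abs_mul]
    exact mul_le_one₀ ((S.abs_E_le g).trans hg) (abs_nonneg _) ((S.abs_E_le h).trans hh)
  have h4 : |S.lam F| ≤ 1 := (S.lam_le F).trans hF
  have h5 := abs_nonneg (S.lam F)
  have h6 := abs_nonneg (S.E g * S.E h)
  have h7 : 992 / 1000 ≤ |S.E g * S.E h| := by nlinarith
  exact ⟨h7, by nlinarith⟩

/-- On block functions only one level survives. -/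
lemma A_blk (n : ℕ) (φ : Fin (G n).M → ℝ) (w g h : C(K, ℝ)) :
    S.A hβ (w * S.blk n φ) g h = 1 / 2 * S.T n (w * S.blk n φ) g h := by
  rw [A_apply, S.lam_blk, zero_mul, zero_add, tsum_eq_single n]
  intro n' hn'
  simp [T_apply, op_apply, S.blk_p_ne n n' φ _ hn']

/-- For functions vanishing on block `n`, cutting by an atom of level `n` scales the form. -/
lemma A_cut {n : ℕ} {F g h : C(K, ℝ)} (hF : ∀ l, F (S.p n l) = 0) (hg : S.Inv n g)
    (hh : S.Inv n h) (η : (G n).J) :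
    S.A hβ F (g * lift (S.π n) (Pi.single η 1)) (h * lift (S.π n) (Pi.single η 1)) =
      (1 / m G n) ^ 2 * S.A hβ F g h := by
  have e : 𝔼 η', (Pi.single η (1 : ℝ) : (G n).J → ℝ) η' = 1 / m G n := by
    simpa using expect_mul_single n 1 η
  have key : ∀ n', S.T n' F (g * lift (S.π n) (Pi.single η 1))
      (h * lift (S.π n) (Pi.single η 1)) = (1 / m G n) ^ 2 * S.T n' F g h := by
    intro n'
    by_cases hn : n' = n
    · subst hn
      simp [T_apply, op_apply, hF]
    · rw [T_apply, T_apply, S.dev_mul_lift_ne hn hg, S.dev_mul_lift_ne hn hh, e, Finset.mul_expect]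
      refine Finset.expect_congr rfl fun η' _ => ?_
      simp only [Pi.smul_apply, smul_eq_mul]; ring
  rw [A_apply, A_apply, S.E_mul_lift hg, S.E_mul_lift hh, e]
  simp only [key, tsum_mul_left]
  ring

omit hβ in
/-- The diagonal part at level `n`. -/
lemma diag_T {n : ℕ} (F : C(K, ℝ)) {g h : C(K, ℝ)} (hg : S.Inv n g) (hh : S.Inv n h)
    (b : (G n).J → ℝ) (hb : ∑ η, b η = 0) :
    ∑ η, S.T n F (g * lift (S.π n) b * lift (S.π n) (Pi.single η 1))
      (h * lift (S.π n) (Pi.single η 1)) =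
      S.E g * S.E h * ((1 - 2 / m G n) * 𝔼 η, S.op n F η * b η) := by
  have h0 := m_ge (G := G) n
  have e : ∀ η, 𝔼 η', (Pi.single η (1 : ℝ) : (G n).J → ℝ) η' = 1 / m G n := by
    intro η; simpa using expect_mul_single n 1 η
  have key : ∀ η, S.T n F (g * lift (S.π n) b * lift (S.π n) (Pi.single η 1))
      (h * lift (S.π n) (Pi.single η 1)) = S.E g * S.E h *
        ((1 - 2 / m G n) * (S.op n F η * b η / m G n) +
          b η * ((1 / m G n) ^ 2 * 𝔼 η', S.op n F η')) := by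
    intro η
    rw [T_apply, mul_assoc g, lift_mul]
    simp only [S.dev_mul_lift hg, S.dev_mul_lift hh, expect_mul_single, e]
    rw [← expect_mul_single n (fun η => S.op n F η * b η) η]
    simp only [Finset.mul_expect, ← Finset.expect_add_distrib]
    refine Finset.expect_congr rfl fun η' _ => ?_
    by_cases hη : η' = η
    · subst hη; simp; ring
    · simp [hη]; ring
  simp only [key]
  rw [← Finset.mul_sum, Finset.sum_add_distrib, ← Finset.sum_mul, hb, zero_mul, add_zero,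
    ← Finset.mul_sum, ← Finset.sum_div, Fintype.expect_eq_sum_div_card]
  rfl

end Setup

end Pool.Agent.MP_ce1e3b_an
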