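import Mathlib.MeasureTheory.Function.LocallyIntegrable
import Mathlib.MeasureTheory.Measure.Haar.Basic
import Mathlib.Topology.ContinuousMap.Lattice
import Mathlib.MeasureTheory.Group.Integral
import Mathlib.Topology.Compactification.OnePoint.Basic
import Mathlib.Topology.Connected.Separation
import Mathlib.Topology.Separation.Lemmas
import Pool.Agent.MP_ce1e3b_an.Form

-- ======== part 0: formerly Pool.Agent.MP_ce1e3b_an.Main
section MrgPart0

/-! The main contradiction. -/

open Finset Filter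
open scoped BigOperators

namespace Pool.Agent.MP_ce1e3b_an

section
variable {K J : Type*} [TopologicalSpace K] [TopologicalSpace J] [DiscreteTopology J]
  [Fintype J] [DecidableEq J]

/-- The averaged test expression. -/
noncomputable def Psi (π : C(K, J)) (b : J → ℝ) (B : Tri C(K, ℝ)) : Tri C(K, ℝ) :=
  mk₃ (fun u g h => -2 * B u (g * lift π b) h - 2 * B u g (h * lift π b) +
      4 * diag π B u (g * lift π b) h)
    (by intros; simp; ring)
    (by intros; simp; ring)
    (by intros; simp [add_mul]; ring)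
    (by intros; simp; ring)
    (by intros; simp [add_mul]; ring)
    (by intros; simp; ring)

lemma Psi_apply (π : C(K, J)) (b : J → ℝ) (B : Tri C(K, ℝ)) (u g h : C(K, ℝ)) :
    Psi π b B u g h = -2 * B u (g * lift π b) h - 2 * B u g (h * lift π b) +
      4 * diag π B u (g * lift π b) h := rfl

lemma sum_cut (π : C(K, J)) (b : J → ℝ) (B : Tri C(K, ℝ)) (u g h : C(K, ℝ)) :
    ∑ η, b η * B u (g - (2 : ℝ) • (g * lift π (Pi.single η 1)))
      (h - (2 : ℝ) • (h * lift π (Pi.single η 1))) = (∑ η, b η) * B u g h + Psi π b B u g h := by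
  have h1 : ∀ η, g * lift π b * lift π (Pi.single η 1) = b η • (g * lift π (Pi.single η 1)) := by
    intro η
    ext x
    by_cases hx : π x = η
    · simp [hx, mul_comm]
    · simp [hx]
  rw [Psi_apply, diag_apply]
  simp only [h1]
  rw [lift_eq_sum π b]
  simp only [Finset.mul_sum, Finset.sum_mul, map_sum, LinearMap.sum_apply, mul_smul_comm, map_smul,
    map_sub, LinearMap.sub_apply, LinearMap.smul_apply, smul_eq_mul, ← Finset.sum_add_distrib,
    ← Finset.sum_sub_distrib]
  exact Finset.sum_congr rfl fun η _ => by ring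

variable [CompactSpace K]

lemma Bdd.psi (π : C(K, J)) {b : J → ℝ} (hb : ∀ η, |b η| ≤ 1) {B : Tri C(K, ℝ)} {c : ℝ}
    (hB : Bdd B c) (hc : 0 ≤ c) : Bdd (Psi π b B) (8 * c) := by
  intro u g h
  have h1 := abs_le.1 (hB.le_mul hc (le_refl ‖u‖) (norm_mul_lift_le π b hb g) (le_refl ‖h‖))
  have h2 := abs_le.1 (hB.le_mul hc (le_refl ‖u‖) (le_refl ‖g‖) (norm_mul_lift_le π b hb h))
  have h3 := abs_le.1 ((hB.diag π hc).le_mul hc (le_refl ‖u‖) (norm_mul_lift_le π b hb g)
    (le_refl ‖h‖))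
  rw [Psi_apply]
  exact abs_le.2 ⟨by linarith [h1.1, h1.2, h2.1, h2.2, h3.1, h3.2],
    by linarith [h1.1, h1.2, h2.1, h2.2, h3.1, h3.2]⟩

omit [Fintype J] in
lemma norm_flip_le (π : C(K, J)) (η : J) {g : C(K, ℝ)} (hg : ‖g‖ ≤ 1) :
    ‖g - (2 : ℝ) • (g * lift π (Pi.single η 1))‖ ≤ 1 := by
  refine (ContinuousMap.norm_le _ zero_le_one).2 fun x => ?_
  have := (g.norm_coe_le_norm x).trans hg
  by_cases hx : π x = η
  · have e : (g - (2 : ℝ) • (g * lift π (Pi.single η 1))) x = - g x := by simp [hx]; ring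
    rwa [e, norm_neg]
  · simpa [hx] using this

end

namespace Setup

variable {K : Type} [TopologicalSpace K] [CompactSpace K] {β : ℕ → ℝ} {G : ∀ n, Gadget (β n)}
  (S : Setup K β G)

lemma exists_inv (n : ℕ) {g : C(K, ℝ)} {δ : ℝ} (hg : ‖g‖ ≤ 1)
    (hc : ∀ a, ‖g.comp (S.τ n a) - g‖ ≤ δ) :
    ∃ g' : C(K, ℝ), S.Inv n g' ∧ S.E g' = S.E g ∧ ‖g'‖ ≤ 1 ∧ ‖g' - g‖ ≤ δ := by
  have h0 := m_ge (G := G) n
  have h1 : 0 ≤ 1 / m G n := by positivity
  have hm : ∀ r : ℝ, (1 / m G n) * ∑ _a : (G n).J, r = r := by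
    intro r
    rw [Finset.sum_const, Finset.card_univ, nsmul_eq_mul]
    change 1 / m G n * (m G n * r) = r
    field_simp
  refine ⟨(1 / m G n) • ∑ a, g.comp (S.τ n a), fun b => ?_, ?_, ?_, ?_⟩
  · ext x
    simp only [ContinuousMap.comp_apply, ContinuousMap.smul_apply, ContinuousMap.coe_sum,
      Finset.sum_apply, ContinuousMap.coe_comp, Function.comp_apply, S.τ_τ]
    congr 1
    exact Fintype.sum_equiv (Equiv.addRight b) _ _ fun _ => rfl
  · simp only [map_smul, map_sum, S.E_τ, smul_eq_mul, hm]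
  · rw [norm_smul, Real.norm_of_nonneg h1]
    have hn : ∀ a, ‖g.comp (S.τ n a)‖ ≤ 1 := fun a =>
      (ContinuousMap.norm_le _ zero_le_one).2 fun x => (g.norm_coe_le_norm _).trans hg
    exact (mul_le_mul_of_nonneg_left (norm_sum_le_of_le _ fun a _ => hn a) h1).trans (hm 1).le
  · have e : (1 / m G n) • ∑ a, g.comp (S.τ n a) - g =
        (1 / m G n) • ∑ a, (g.comp (S.τ n a) - g) := by
      rw [Finset.sum_sub_distrib, smul_sub]
      congr 1
      ext x
      simp only [ContinuousMap.smul_apply, ContinuousMap.coe_sum, Finset.sum_apply, smul_eq_mul, hm]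
    rw [e, norm_smul, Real.norm_of_nonneg (by positivity), ← hm δ]
    exact mul_le_mul_of_nonneg_left (norm_sum_le_of_le _ fun a _ => hc a) (by positivity)

variable (hβ : ∀ s : Finset ℕ, ∑ n ∈ s, β n ≤ 1 / 1000)
include hβ

lemma psi_one_ge {n : ℕ} {F g h : C(K, ℝ)} (hF : ‖F‖ ≤ 1) (hg : ‖g‖ ≤ 1) (hh : ‖h‖ ≤ 1)
    (hgi : S.Inv n g) (hhi : S.Inv n h) (hs : ∀ l, |F (S.p n l)| ≤ 1 / 1000) :
    -(403 / 100) ≤ Psi (S.π n) 1 (S.A hβ) F g h := by
  have h0 := m_ge (G := G) n
  set F1 := S.blk n (fun l => F (S.p n l)) with hF1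
  have n1 : ‖F1‖ ≤ 1 / 1000 :=
    (ContinuousMap.norm_le _ (by norm_num)).2 fun x => S.blk_le n _ _ (by norm_num) hs x
  have n2 : ‖F - F1‖ ≤ 1 + 1 / 1000 := (norm_sub_le _ _).trans (add_le_add hF n1)
  have e1 : Psi (S.π n) 1 (S.A hβ) F g h =
      Psi (S.π n) 1 (S.A hβ) (F - F1) g h + Psi (S.π n) 1 (S.A hβ) F1 g h := by
    simp
  have e2 := (abs_le.1 (((S.bdd_A hβ).psi (S.π n) (b := 1) (by simp) (by norm_num)).le_mul
    (by norm_num) n1 hg hh)).1
  have e3 : Psi (S.π n) 1 (S.A hβ) (F - F1) g h =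
      -4 * ((1 - 1 / m G n) * S.A hβ (F - F1) g h) := by
    rw [Psi_apply, diag_apply, lift_one, mul_one, mul_one,
      Finset.sum_congr rfl fun η _ => S.A_cut hβ (by simp [hF1, S.blk_p]) hgi hhi η,
      Finset.sum_const, Finset.card_univ, nsmul_eq_mul]
    change _ + 4 * (m G n * _) = _
    field_simp
    ring
  have e4 := (S.bdd_A hβ).le_mul (by norm_num) n2 hg hh
  have e5 : |(1 - 1 / m G n) * S.A hβ (F - F1) g h| ≤ |S.A hβ (F - F1) g h| := by
    rw [abs_mul]
    refine mul_le_of_le_one_left (abs_nonneg _) (abs_le.2 ⟨?_, ?_⟩)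
    · have : 1 / m G n ≤ 1 := by rw [div_le_one (by linarith)]; linarith
      linarith
    · have : 0 ≤ 1 / m G n := by positivity
      linarith
  have e6 := (abs_le.1 (e5.trans e4)).2
  linarith

lemma psi_gain {n : ℕ} {F g h : C(K, ℝ)} (hgi : S.Inv n g) (hhi : S.Inv n h)
    (hs : ∀ l, |F (S.p n l)| ≤ 1 / 1000) (s : ℝ) (hE : 992 / 1000 ≤ s * (S.E g * S.E h))
    (i : Fin (G n).d) :
    64 / 100 ≤ Psi (S.π n) ((G n).b i) (S.A hβ) ((s • (1 - |F|)) * S.blk n ((G n).a i)) g h := by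
  have h0 := m_ge (G := G) n
  have hβn : β n ≤ 1 / 1000 := by simpa using hβ {n}
  rw [Psi_apply, diag_apply]
  simp only [S.A_blk hβ]
  rw [← Finset.mul_sum, S.diag_T _ hgi hhi _ ((G n).hb0 i), T_apply, T_apply, S.dev_inv hgi,
    S.dev_inv hhi]
  simp only [Pi.zero_apply, mul_zero, zero_mul, Finset.expect_const_zero]
  have e1 := (G n).hgain i
  have e2 := (abs_le.1 ((G n).hα (fun l => 1000 * |F (S.p n l)| * (G n).a i l) ((G n).b i)
    (fun l => by
      rw [abs_mul, abs_mul, abs_abs, abs_of_pos (by norm_num : (0 : ℝ) < 1000)]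
      exact mul_le_one₀ (by linarith [hs l]) (abs_nonneg _) ((G n).ha i l))
    ((G n).hb i))).2
  have e3 : 𝔼 η, |(G n).b i η| ≤ 1 := Finset.expect_le Finset.univ_nonempty fun η _ => (G n).hb i η
  have e4 : 𝔼 η, S.op n ((s • (1 - |F|)) * S.blk n ((G n).a i)) η * (G n).b i η =
      s * ((𝔼 η, (∑ l, (G n).α η l * (G n).a i l) * (G n).b i η) - (1 / 1000) *
        𝔼 η, (∑ l, (G n).α η l * (1000 * |F (S.p n l)| * (G n).a i l)) * (G n).b i η) := by
    rw [Finset.mul_expect, ← Finset.expect_sub_distrib, Finset.mul_expect]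
    refine Finset.expect_congr rfl fun η _ => ?_
    rw [op_apply]
    simp only [ContinuousMap.mul_apply, ContinuousMap.smul_apply, ContinuousMap.sub_apply,
      ContinuousMap.one_apply, ContinuousMap.abs_apply, S.blk_p, smul_eq_mul, Finset.mul_sum,
      Finset.sum_mul, ← Finset.sum_sub_distrib]
    exact Finset.sum_congr rfl fun l _ => by ring
  rw [e4]
  set X := (𝔼 η, (∑ l, (G n).α η l * (G n).a i l) * (G n).b i η) - (1 / 1000) *
        𝔼 η, (∑ l, (G n).α η l * (1000 * |F (S.p n l)| * (G n).a i l)) * (G n).b i η with hX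
  have e5 : 373 / 1000 ≤ X := by linarith
  have e6 : 7 / 8 ≤ 1 - 2 / m G n := by
    have : 2 / m G n ≤ 1 / 8 := by rw [div_le_iff₀ (by linarith)]; linarith
    linarith
  have e7 : (992 / 1000) * ((7 / 8) * (373 / 1000)) ≤
      (s * (S.E g * S.E h)) * ((1 - 2 / m G n) * X) :=
    mul_le_mul hE (mul_le_mul e6 e5 (by norm_num) (by linarith)) (by norm_num) (by linarith)
  nlinarith

theorem no_max (B : Tri C(K, ℝ)) (hB : Bdd B (1 / 1000)) {F g h : C(K, ℝ)}
    (hF : ‖F‖ ≤ 1) (hg : ‖g‖ ≤ 1) (hh : ‖h‖ ≤ 1)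
    (hmax : ∀ x y z, ‖x‖ ≤ 1 → ‖y‖ ≤ 1 → ‖z‖ ≤ 1 →
      S.A hβ x y z + B x y z ≤ S.A hβ F g h + B F g h) : False := by
  have one_le : ‖(1 : C(K, ℝ))‖ ≤ 1 := (ContinuousMap.norm_le _ zero_le_one).2 (by simp)
  have hA : 1 - 2 / 1000 ≤ S.A hβ F g h := by
    have e1 := hmax _ _ _ S.F0_norm one_le one_le
    have e2 := (abs_le.1 (hB.le_mul (by norm_num) S.F0_norm one_le one_le)).1
    have e3 := (abs_le.1 (hB.le_mul (by norm_num) hF hg hh)).2
    rw [S.A_F0] at e1
    linarith
  obtain ⟨hE, hlam⟩ := S.near_max hβ hF hg hh hA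
  obtain ⟨n, hs, hgc, hhc⟩ := ((S.small F hF hlam (1 / 1000) (by norm_num)).and_eventually
    ((S.τ_close g (1 / 1000) (by norm_num)).and (S.τ_close h (1 / 1000) (by norm_num)))).exists
  obtain ⟨g', hgi, hgE, hg1, hgg⟩ := S.exists_inv n hg hgc
  obtain ⟨h', hhi, hhE, hh1, hhh⟩ := S.exists_inv n hh hhc
  obtain ⟨s, hs1, hsE⟩ : ∃ s : ℝ, |s| = 1 ∧ s * (S.E g * S.E h) = |S.E g * S.E h| := by
    rcases le_total 0 (S.E g * S.E h) with h0 | h0
    · exact ⟨1, by simp, by rw [abs_of_nonneg h0, one_mul]⟩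
    · exact ⟨-1, by simp, by rw [abs_of_nonpos h0]; ring⟩
  have hd : (0 : ℝ) < (G n).d := by have := (G n).hd; positivity
  set c : ℝ := 8 / (G n).d with hc
  set w : C(K, ℝ) := s • (1 - |F|) with hw
  have hwx : ∀ x, |w x| = 1 - |F x| := by
    intro x
    have := (F.norm_coe_le_norm x).trans hF
    rw [Real.norm_eq_abs] at this
    simp only [hw, ContinuousMap.smul_apply, ContinuousMap.sub_apply, ContinuousMap.one_apply,
      ContinuousMap.abs_apply, smul_eq_mul, abs_mul, hs1, one_mul]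
    exact abs_of_nonneg (by linarith)
  set u : Fin (G n).d → C(K, ℝ) := fun i => w * S.blk n ((G n).a i) with hu
  have hu1 : ∀ i, ‖u i‖ ≤ 1 := by
    intro i
    refine (ContinuousMap.norm_le _ zero_le_one).2 fun x => ?_
    simp only [hu, ContinuousMap.mul_apply, Real.norm_eq_abs, abs_mul, hwx]
    exact mul_le_one₀ (by linarith [abs_nonneg (F x)]) (abs_nonneg _)
      (S.blk_le n _ 1 zero_le_one ((G n).ha i) x)
  set Y : (G n).J → C(K, ℝ) := fun η => ∑ i, (c * (G n).b i η) • u i with hY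
  have hY1 : ∀ η, ‖F + Y η‖ ≤ 1 := by
    intro η
    have e : Y η = w * S.blk n (fun l => 8 * 𝔼 i, (G n).a i l * (G n).b i η) := by
      have : (fun l => 8 * 𝔼 i, (G n).a i l * (G n).b i η) =
          ∑ i, (c * (G n).b i η) • (G n).a i := by
        ext l
        rw [Fintype.expect_eq_sum_div_card, Fintype.card_fin, Finset.sum_div, Finset.mul_sum,
          Finset.sum_apply]
        refine Finset.sum_congr rfl fun i _ => ?_
        simp only [hc, Pi.smul_apply, smul_eq_mul]; ring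
      rw [this, map_sum, Finset.mul_sum]
      simp only [hY, hu, map_smul, mul_smul_comm]
    refine (ContinuousMap.norm_le _ zero_le_one).2 fun x => ?_
    rw [e, Real.norm_eq_abs, ContinuousMap.add_apply, ContinuousMap.mul_apply]
    refine (abs_add_le _ _).trans ?_
    rw [abs_mul, hwx]
    have e1 := S.blk_le n _ 1 zero_le_one ((G n).hy η) x
    have e2 := (F.norm_coe_le_norm x).trans hF
    rw [Real.norm_eq_abs] at e2
    nlinarith
  have key : ∀ D : Tri C(K, ℝ),
      ∑ η, (D (F + Y η) (g - (2 : ℝ) • (g * lift (S.π n) (Pi.single η 1)))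
        (h - (2 : ℝ) • (h * lift (S.π n) (Pi.single η 1))) - D F g h) =
      Psi (S.π n) 1 D F g h + ∑ i, c * Psi (S.π n) ((G n).b i) D (u i) g h := by
    intro D
    have e1 := sum_cut (S.π n) 1 D F g h
    have e2 := fun i => sum_cut (S.π n) ((G n).b i) D (u i) g h
    simp only [(G n).hb0, zero_mul, zero_add] at e2
    simp only [Pi.one_apply, one_mul, Finset.sum_mul] at e1
    simp only [← e2, Finset.mul_sum]
    rw [Finset.sum_comm, eq_sub_of_add_eq' e1.symm, ← Finset.sum_sub_distrib,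
      ← Finset.sum_add_distrib]
    refine Finset.sum_congr rfl fun η _ => ?_
    rw [map_add, LinearMap.add_apply, LinearMap.add_apply]
    simp only [hY, map_sum, LinearMap.sum_apply, map_smul (D), LinearMap.smul_apply, smul_eq_mul,
      mul_assoc]
    ring
  have hcd : ∀ r : ℝ, ∑ _i : Fin (G n).d, c * r = 8 * r := by
    intro r
    rw [Finset.sum_const, Finset.card_univ, Fintype.card_fin, nsmul_eq_mul, hc]
    field_simp
  have hc0 : 0 ≤ c := by positivity
  have hsum : ∑ η, (S.A hβ (F + Y η) (g - (2 : ℝ) • (g * lift (S.π n) (Pi.single η 1)))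
        (h - (2 : ℝ) • (h * lift (S.π n) (Pi.single η 1))) - S.A hβ F g h) +
      ∑ η, (B (F + Y η) (g - (2 : ℝ) • (g * lift (S.π n) (Pi.single η 1)))
        (h - (2 : ℝ) • (h * lift (S.π n) (Pi.single η 1))) - B F g h) ≤ 0 := by
    rw [← Finset.sum_add_distrib]
    refine Finset.sum_nonpos fun η _ => ?_
    have := hmax _ _ _ (hY1 η) (norm_flip_le (S.π n) η hg) (norm_flip_le (S.π n) η hh)
    linarith
  rw [key, key] at hsum
  have b1 := (abs_le.1 ((hB.psi (S.π n) (b := 1) (by simp) (by norm_num)).le_mul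
    (by norm_num) hF hg hh)).1
  have b2 : ∑ _i : Fin (G n).d, c * (-(8 / 1000)) ≤
      ∑ i, c * Psi (S.π n) ((G n).b i) B (u i) g h := by
    refine Finset.sum_le_sum fun i _ => mul_le_mul_of_nonneg_left ?_ hc0
    have := (abs_le.1 ((hB.psi (S.π n) ((G n).hb i) (by norm_num)).le_mul
      (by norm_num) (hu1 i) hg hh)).1
    linarith
  have a1 := ((S.bdd_A hβ).psi (S.π n) (b := 1) (by simp) (by norm_num)).perturb (by norm_num)
    hF hg hh1 hgg hhh
  have a2 := S.psi_one_ge hβ hF hg1 hh1 hgi hhi hs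
  have a3 : ∑ _i : Fin (G n).d, c * (62 / 100) ≤
      ∑ i, c * Psi (S.π n) ((G n).b i) (S.A hβ) (u i) g h := by
    refine Finset.sum_le_sum fun i _ => mul_le_mul_of_nonneg_left ?_ hc0
    have e1 := ((S.bdd_A hβ).psi (S.π n) ((G n).hb i) (by norm_num)).perturb (by norm_num)
      (hu1 i) hg hh1 hgg hhh
    have e2 := S.psi_gain hβ (F := F) hgi hhi hs s (by rw [hgE, hhE, hsE]; exact hE) i
    linarith
  rw [hcd] at b2 a3
  linarith

end Setup

end Pool.Agent.MP_ce1e3b_an

end MrgPart0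

-- ======== part 1: formerly Pool.Agent.MP_ce1e3b_an.Space
section MrgPart1

/-! The compact space. -/

open Finset Filter Topology MeasureTheory
open scoped BigOperators

namespace Pool.Agent.MP_ce1e3b_an

/-- An invariant mean on the continuous functions on a compact abelian group. -/
lemma exists_mean (H : Type) [AddCommGroup H] [TopologicalSpace H] [IsTopologicalAddGroup H]
    [CompactSpace H] [T2Space H] :
    ∃ E : C(H, ℝ) →ₗ[ℝ] ℝ, E 1 = 1 ∧ (∀ g : C(H, ℝ), (∀ x, 0 ≤ g x) → 0 ≤ E g) ∧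
      ∀ (a : H) (g g' : C(H, ℝ)), (∀ x, g' x = g (a + x)) → E g' = E g := by
  borelize H
  let μ : Measure H := Measure.addHaarMeasure ⊤
  have hμ : IsProbabilityMeasure μ := ⟨by
    have := Measure.addHaarMeasure_self (G := H) (K₀ := ⊤)
    simpa using this⟩
  have hint : ∀ g : C(H, ℝ), Integrable g μ := fun g =>
    g.continuous.integrable_of_hasCompactSupport (HasCompactSupport.of_compactSpace _)
  refine ⟨⟨⟨fun g => ∫ x, g x ∂μ, fun g h => ?_⟩, fun c g => ?_⟩, ?_, fun g hg => ?_,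
    fun a g g' h => ?_⟩
  · simpa using integral_add (hint g) (hint h)
  · simpa using integral_const_mul c g
  · simp
  · exact integral_nonneg hg
  · simp only [LinearMap.coe_mk, AddHom.coe_mk, h]
    exact integral_add_left_eq_self (fun x => g x) a

variable {β : ℕ → ℝ} (G : ∀ n, Gadget (β n))

/-- The index set of the blocks. -/
abbrev Idx := Σ n, Fin (G n).M

/-- The Cantor group. -/
abbrev Grp := ∀ n, (G n).J

/-- The compact space. -/
abbrev Sp := unitInterval × OnePoint (Idx G) × Grp G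

/-- Indicator function of an isolated point of the one point compactification. -/
noncomputable def ind (x : Idx G) : C(OnePoint (Idx G), ℝ) :=
  ⟨Set.indicator {(x : OnePoint (Idx G))} 1,
    IsClopen.continuous_indicator ⟨isClosed_singleton, by
      simpa using OnePoint.isOpenEmbedding_coe.isOpenMap {x} (isOpen_discrete _)⟩ continuous_const⟩

lemma ind_coe (x y : Idx G) : ind G x y = if y = x then 1 else 0 := by
  by_cases h : y = x <;> simp [ind, h]

lemma ind_infty (x : Idx G) : ind G x OnePoint.infty = 0 := by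
  simp [ind]

/-- Block functions. -/
noncomputable def blkF (n : ℕ) : (Fin (G n).M → ℝ) →ₗ[ℝ] C(Sp G, ℝ) where
  toFun φ := ∑ l, φ l • (ind G ⟨n, l⟩).comp ⟨fun x => x.2.1, by fun_prop⟩
  map_add' φ ψ := by simp [add_smul, Finset.sum_add_distrib]
  map_smul' c φ := by simp [Finset.smul_sum, smul_smul]

lemma blkF_apply (n : ℕ) (φ : Fin (G n).M → ℝ) (x : Sp G) :
    blkF G n φ x = ∑ l, φ l * ind G ⟨n, l⟩ x.2.1 := by
  simp [blkF, ContinuousMap.sum_apply]

lemma blkF_same (n : ℕ) (φ : Fin (G n).M → ℝ) (s : unitInterval) (l : Fin (G n).M) (ω : Grp G) :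
    blkF G n φ (s, ((⟨n, l⟩ : Idx G) : OnePoint (Idx G)), ω) = φ l := by
  simp [blkF_apply, ind_coe]

lemma blkF_ne {n n' : ℕ} (h : n' ≠ n) (φ : Fin (G n).M → ℝ) (s : unitInterval)
    (l : Fin (G n').M) (ω : Grp G) :
    blkF G n φ (s, ((⟨n', l⟩ : Idx G) : OnePoint (Idx G)), ω) = 0 := by
  simp [blkF_apply, ind_coe, h]

lemma blkF_infty (n : ℕ) (φ : Fin (G n).M → ℝ) (s : unitInterval) (ω : Grp G) :
    blkF G n φ (s, OnePoint.infty, ω) = 0 := by
  simp [blkF_apply, ind_infty]

/-- Translation of the group coordinate. -/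
def shift : C(Grp G × Sp G, Sp G) := ⟨fun z => (z.2.1, z.2.2.1, z.1 + z.2.2.2), by fun_prop⟩

lemma shift_close (g : C(Sp G, ℝ)) (δ : ℝ) (hδ : 0 < δ) :
    ∀ᶠ n in atTop, ∀ a : (G n).J, ‖g.comp ((shift G).curry (Pi.single n a)) - g‖ ≤ δ := by
  have hc : Continuous fun z : Grp G => ‖g.comp ((shift G).curry z) - g‖ := by fun_prop
  have h0 : ‖g.comp ((shift G).curry 0) - g‖ < δ := by
    have : g.comp ((shift G).curry 0) = g := by ext x; simp [shift]
    simpa [this] using hδ
  have h1 : {z : Grp G | ‖g.comp ((shift G).curry z) - g‖ < δ} ∈ 𝓝 (0 : Grp G) :=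
    (isOpen_lt hc continuous_const).mem_nhds h0
  rw [nhds_pi, Filter.mem_pi] at h1
  obtain ⟨I, hI, t, ht, hsub⟩ := h1
  obtain ⟨N, hN⟩ := hI.bddAbove
  filter_upwards [eventually_gt_atTop N] with n hn a
  refine le_of_lt (hsub (a := Pi.single n a) fun i hi => ?_)
  have : i ≠ n := fun e => absurd (hN hi) (by omega)
  rw [Pi.single_eq_of_ne this]
  exact mem_of_mem_nhds (ht i)

/-- Location of block `n`. -/
noncomputable def loc (n : ℕ) : unitInterval :=
  TopologicalSpace.denseSeq unitInterval (Nat.unpair n).1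

lemma small_block (F : C(Sp G, ℝ)) (t : unitInterval) (ht : F (t, OnePoint.infty, 0) = 0)
    (δ : ℝ) (hδ : 0 < δ) : ∃ᶠ n in atTop, ∀ l : Fin (G n).M,
      |F (loc n, ((⟨n, l⟩ : Idx G) : OnePoint (Idx G)), 0)| ≤ δ := by
  have hc : Continuous fun z : unitInterval × OnePoint (Idx G) => |F (z.1, z.2, 0)| := by fun_prop
  have h1 : {z : unitInterval × OnePoint (Idx G) | |F (z.1, z.2, 0)| < δ} ∈
      𝓝 (t, OnePoint.infty) := (isOpen_lt hc continuous_const).mem_nhds (by simpa [ht] using hδ)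
  obtain ⟨U, hU, V, hV, hUV⟩ := mem_nhds_prod_iff.1 h1
  have h2 : ((↑) : Idx G → OnePoint (Idx G)) ⁻¹' V ∈ cofinite := by
    rw [← cocompact_eq_cofinite, ← Filter.coclosedCompact_eq_cocompact,
      ← OnePoint.comap_coe_nhds_infty]
    exact Filter.preimage_mem_comap hV
  obtain ⟨N, hN⟩ := ((Filter.mem_cofinite.1 h2).image Sigma.fst).bddAbove
  obtain ⟨i, hi⟩ := (TopologicalSpace.denseRange_denseSeq unitInterval).mem_nhds hU
  rw [frequently_atTop]
  intro M
  refine ⟨Nat.pair i (max M (N + 1)), (le_max_left _ _).trans (Nat.right_le_pair _ _), fun l => ?_⟩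
  refine le_of_lt (hUV (a := (_, _)) ⟨by simp only [Nat.unpair_pair]; exact hi, ?_⟩)
  by_contra hn
  have h3 := hN ⟨⟨_, l⟩, hn, rfl⟩
  have h4 := (le_max_right M (N + 1)).trans (Nat.right_le_pair i _)
  simp only at h3
  omega

theorem exists_setup : Nonempty (Setup (Sp G) β G) := by
  obtain ⟨E, hE1, hE2, hE3⟩ := exists_mean (Grp G)
  let ι : C(Grp G, Sp G) := ⟨fun ω => (0, OnePoint.infty, ω), by fun_prop⟩
  refine ⟨{
    E := E ∘ₗ (ContinuousMap.compRightAlgHom ℝ ℝ ι).toLinearMap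
    E_one := hE1
    E_nonneg := fun g hg => hE2 _ fun x => hg _
    π := fun n => ⟨fun x => x.2.2 n, by fun_prop⟩
    τ := fun n a => (shift G).curry (Pi.single n a)
    E_τ := fun n a g => hE3 (Pi.single n a) _ _ fun x => rfl
    π_τ := fun n a x => by simp [shift, add_comm]
    π_τ_ne := fun n n' a x h => by simp [shift, Pi.single_eq_of_ne h]
    τ_τ := fun n a b x => by simp [shift, Pi.single_add, add_assoc]
    τ_close := shift_close G
    lam := ⟨⟨fun F => (F (1, OnePoint.infty, 0) - F (0, OnePoint.infty, 0)) / 2,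
      fun F F' => by simp; ring⟩, fun c F => by simp; ring⟩
    lam_le := fun F => ?_
    F0 := ⟨fun x => 2 * (x.1 : ℝ) - 1, by fun_prop⟩
    F0_norm := ?_
    lam_F0 := by norm_num
    p := fun n l => (loc n, ((⟨n, l⟩ : Idx G) : OnePoint (Idx G)), 0)
    blk := blkF G
    blk_le := fun n φ c hc hφ x => ?_
    blk_p := fun n φ l => blkF_same G n φ _ l _
    blk_p_ne := fun n n' φ l h => blkF_ne G h φ _ l _
    lam_blk := fun n φ w => by simp [blkF_infty]
    small := fun F hF hl δ hδ => ?_ }⟩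
  · have h1 := abs_le.1 (F.norm_coe_le_norm (1, OnePoint.infty, 0))
    have h2 := abs_le.1 (F.norm_coe_le_norm (0, OnePoint.infty, 0))
    simp only [LinearMap.coe_mk, AddHom.coe_mk]
    exact abs_le.2 ⟨by linarith [h1.1, h2.2], by linarith [h1.2, h2.1]⟩
  · refine (ContinuousMap.norm_le _ zero_le_one).2 fun x => abs_le.2 ⟨?_, ?_⟩
    · simp only [ContinuousMap.coe_mk]; linarith [x.1.2.1]
    · simp only [ContinuousMap.coe_mk]; linarith [x.1.2.2]
  · obtain ⟨s, ν, ω⟩ := x
    induction ν using OnePoint.rec with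
    | infty => simpa [blkF_infty] using hc
    | coe y =>
      obtain ⟨n', l⟩ := y
      by_cases h : n' = n
      · subst h; rw [blkF_same]; exact hφ l
      · rw [blkF_ne G h]; simpa using hc
  · have h1 := abs_le.1 ((F.norm_coe_le_norm (1, OnePoint.infty, 0)).trans hF)
    have h2 := abs_le.1 ((F.norm_coe_le_norm (0, OnePoint.infty, 0)).trans hF)
    simp only [LinearMap.coe_mk, AddHom.coe_mk] at hl
    have hc : Continuous fun s : unitInterval => F (s, OnePoint.infty, 0) := by fun_prop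
    obtain ⟨t, ht⟩ : ∃ t : unitInterval, F (t, OnePoint.infty, 0) = 0 := by
      rcases lt_abs.1 hl with h | h
      · exact intermediate_value_univ 0 1 hc ⟨by linarith [h1.2], by linarith [h2.1]⟩
      · exact intermediate_value_univ 1 0 hc ⟨by linarith [h2.2], by linarith [h1.1]⟩
    exact small_block G F t ht δ hδ

end Pool.Agent.MP_ce1e3b_an

end MrgPart1

-- ======== part 2: formerly Pool.Agent.MP_ce1e3b_an.Final
section MrgPart2

open Pool.Agent.MP_ce1e3b_an

/-- There are a compact Hausdorff space `K` and a bounded real 3-linear form `A` on `C(K)` at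
positive distance, in the operator norm, from all norm attaining 3-linear forms on `C(K)`. -/
theorem Pool.Agent.MP_ce1e3b_an.not_approx :
    ∃ (K : Type) (_ : TopologicalSpace K) (_ : CompactSpace K) (_ : T2Space K),
      ∃ A : ContinuousMultilinearMap ℝ (fun _ : Fin 3 => C(K, ℝ)) ℝ, ∃ ε : ℝ, 0 < ε ∧
        ∀ B : ContinuousMultilinearMap ℝ (fun _ : Fin 3 => C(K, ℝ)) ℝ,
          (∃ f : Fin 3 → C(K, ℝ), (∀ i, ‖f i‖ ≤ 1) ∧ |B f| = ‖B‖) → ε ≤ ‖B - A‖ := by
  let β : ℕ → ℝ := fun n => 1 / 1000 / 2 / 2 ^ n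
  have hβ : ∀ s : Finset ℕ, ∑ n ∈ s, β n ≤ 1 / 1000 := fun s =>
    sum_le_hasSum s (fun n _ => by positivity) (hasSum_geometric_two' (1 / 1000))
  let G : ∀ n, Gadget (β n) := fun n => (exists_gadget (β n) (by positivity)).some
  obtain ⟨S⟩ := exists_setup G
  refine ⟨Sp G, inferInstance, inferInstance, inferInstance, ?_⟩
  let A0 : MultilinearMap ℝ (fun _ : Fin 3 => C(Sp G, ℝ)) ℝ :=
    { toFun := fun m => S.A hβ (m 0) (m 1) (m 2)
      map_update_add' := by
        intro inst m i x y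
        obtain rfl : inst = instDecidableEqFin 3 := Subsingleton.elim _ _
        fin_cases i <;> simp
      map_update_smul' := by
        intro inst m i c x
        obtain rfl : inst = instDecidableEqFin 3 := Subsingleton.elim _ _
        fin_cases i <;> simp }
  let A : ContinuousMultilinearMap ℝ (fun _ : Fin 3 => C(Sp G, ℝ)) ℝ :=
    A0.mkContinuous (1002 / 1000) fun m => by
      rw [Fin.prod_univ_three, ← mul_assoc, ← mul_assoc]
      exact S.bdd_A hβ _ _ _
  have hA : ∀ x y z, A ![x, y, z] = S.A hβ x y z := fun _ _ _ => rfl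
  refine ⟨A, 1 / 1000, by norm_num, fun B ⟨f, hf, hfB⟩ => ?_⟩
  by_contra hB1
  rw [not_le] at hB1
  have u0 : ∀ x x' y z : C(Sp G, ℝ), Function.update ![x, y, z] 0 x' = ![x', y, z] := by
    intro x x' y z; ext1 i; fin_cases i <;> simp
  have u1 : ∀ x y y' z : C(Sp G, ℝ), Function.update ![x, y, z] 1 y' = ![x, y', z] := by
    intro x y y' z; ext1 i; fin_cases i <;> simp
  have u2 : ∀ x y z z' : C(Sp G, ℝ), Function.update ![x, y, z] 2 z' = ![x, y, z'] := by
    intro x y z z'; ext1 i; fin_cases i <;> simp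
  let D : Tri C(Sp G, ℝ) := mk₃ (fun x y z => (B - A) ![x, y, z])
    (fun x x' y z => by simpa only [u0] using (B - A).map_update_add ![x, y, z] 0 x x')
    (fun c x y z => by simpa only [u0, smul_eq_mul] using (B - A).map_update_smul ![x, y, z] 0 c x)
    (fun x y y' z => by simpa only [u1] using (B - A).map_update_add ![x, y, z] 1 y y')
    (fun c x y z => by simpa only [u1, smul_eq_mul] using (B - A).map_update_smul ![x, y, z] 1 c y)
    (fun x y z z' => by simpa only [u2] using (B - A).map_update_add ![x, y, z] 2 z z')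
    (fun c x y z => by simpa only [u2, smul_eq_mul] using (B - A).map_update_smul ![x, y, z] 2 c z)
  have hD : ∀ x y z, S.A hβ x y z + D x y z = B ![x, y, z] := by
    intro x y z
    rw [← hA]
    simp [D]
  have hle : ∀ (C : ContinuousMultilinearMap ℝ (fun _ : Fin 3 => C(Sp G, ℝ)) ℝ) x y z,
      ‖x‖ ≤ 1 → ‖y‖ ≤ 1 → ‖z‖ ≤ 1 → |C ![x, y, z]| ≤ ‖C‖ := by
    intro C x y z hx hy hz
    refine C.unit_le_opNorm ((pi_norm_le_iff_of_nonneg zero_le_one).2 fun i => ?_)
    fin_cases i <;> simpa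
  have hDb : Bdd D (1 / 1000) :=
    bdd_of_unit _ _ fun x y z hx hy hz => (hle (B - A) x y z hx hy hz).trans hB1.le
  have hf3 : f = ![f 0, f 1, f 2] := by ext1 i; fin_cases i <;> simp
  rw [hf3, ← hD] at hfB
  rcases (abs_eq (norm_nonneg B)).1 hfB with h | h
  · refine S.no_max hβ D hDb (hf 0) (hf 1) (hf 2) fun x y z hx hy hz => ?_
    rw [h, hD]
    exact (le_abs_self _).trans (hle B x y z hx hy hz)
  · refine S.no_max hβ D hDb (F := -f 0) (by simpa using hf 0) (hf 1) (hf 2)
      fun x y z hx hy hz => ?_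
    have := (le_abs_self _).trans (hle B x y z hx hy hz)
    rw [← hD] at this
    simp only [map_neg, LinearMap.neg_apply]
    linarith

end MrgPart2

-- marker of a merged file
example : 731051 + 478730 = 731051 + 478730 := rfl
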