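import Mathlib.Topology.Instances.ZMod
import Pool.Agent.MP_ce1e3b_an.Tri

/-! The abstract data on the compact space and the construction of the trilinear form. -/

open Finset Filter
open scoped BigOperators

namespace Pool.Agent.MP_ce1e3b_an

/-- The cube attached to a gadget. -/
abbrev Gadget.J {β : ℝ} (G : Gadget β) := Fin G.d → ZMod 2

/-- Data on a compact space `K` used in the construction. -/
structure Setup (K : Type) [TopologicalSpace K] [CompactSpace K] (β : ℕ → ℝ)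
    (G : ∀ n, Gadget (β n)) where
  E : C(K, ℝ) →ₗ[ℝ] ℝ
  E_one : E 1 = 1
  E_nonneg : ∀ g : C(K, ℝ), (∀ x, 0 ≤ g x) → 0 ≤ E g
  π : ∀ n, C(K, (G n).J)
  τ : ∀ n, (G n).J → C(K, K)
  E_τ : ∀ n a (g : C(K, ℝ)), E (g.comp (τ n a)) = E g
  π_τ : ∀ n a x, π n (τ n a x) = π n x + a
  π_τ_ne : ∀ n n' a x, n' ≠ n → π n' (τ n a x) = π n' x
  τ_τ : ∀ n a b x, τ n a (τ n b x) = τ n (a + b) x
  τ_close : ∀ (g : C(K, ℝ)) (δ : ℝ), 0 < δ → ∀ᶠ n in atTop, ∀ a, ‖g.comp (τ n a) - g‖ ≤ δ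
  lam : C(K, ℝ) →ₗ[ℝ] ℝ
  lam_le : ∀ F, |lam F| ≤ ‖F‖
  F0 : C(K, ℝ)
  F0_norm : ‖F0‖ ≤ 1
  lam_F0 : lam F0 = 1
  p : ∀ n, Fin (G n).M → K
  blk : ∀ n, (Fin (G n).M → ℝ) →ₗ[ℝ] C(K, ℝ)
  blk_le : ∀ n φ (c : ℝ), 0 ≤ c → (∀ l, |φ l| ≤ c) → ∀ x, |blk n φ x| ≤ c
  blk_p : ∀ n φ l, blk n φ (p n l) = φ l
  blk_p_ne : ∀ n n' φ l, n' ≠ n → blk n φ (p n' l) = 0
  lam_blk : ∀ n φ w, lam (w * blk n φ) = 0
  small : ∀ F : C(K, ℝ), ‖F‖ ≤ 1 → 1 / 2 < |lam F| → ∀ δ : ℝ, 0 < δ →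
    ∃ᶠ n in atTop, ∀ l, |F (p n l)| ≤ δ

namespace Setup

variable {K : Type} [TopologicalSpace K] [CompactSpace K] {β : ℕ → ℝ} {G : ∀ n, Gadget (β n)}
  (S : Setup K β G)

lemma abs_E_mul_le (g w : C(K, ℝ)) (hw : ∀ x, 0 ≤ w x) : |S.E (g * w)| ≤ ‖g‖ * S.E w := by
  have h1 := S.E_nonneg (‖g‖ • w - g * w) fun x => by
    have := (abs_le.1 (g.norm_coe_le_norm x)).2
    simp only [ContinuousMap.sub_apply, ContinuousMap.smul_apply, ContinuousMap.mul_apply,
      smul_eq_mul]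
    nlinarith [hw x]
  have h2 := S.E_nonneg (‖g‖ • w + g * w) fun x => by
    have := (abs_le.1 (g.norm_coe_le_norm x)).1
    simp only [ContinuousMap.add_apply, ContinuousMap.smul_apply, ContinuousMap.mul_apply,
      smul_eq_mul]
    nlinarith [hw x]
  simp only [map_sub, map_add, map_smul, smul_eq_mul] at h1 h2
  exact abs_le.2 ⟨by linarith, by linarith⟩

lemma abs_E_le (g : C(K, ℝ)) : |S.E g| ≤ ‖g‖ := by
  simpa [S.E_one] using S.abs_E_mul_le g 1 (by simp)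

/-- Invariance under the translations of level `n`. -/
def Inv (n : ℕ) (u : C(K, ℝ)) : Prop := ∀ a, u.comp (S.τ n a) = u

lemma E_mul_lift {n : ℕ} {u : C(K, ℝ)} (hu : S.Inv n u) (ψ : (G n).J → ℝ) :
    S.E (u * lift (S.π n) ψ) = S.E u * 𝔼 η, ψ η := by
  have h1 : ∀ a, S.E (u * lift (S.π n) ψ) = S.E (u * lift (S.π n) (fun η => ψ (η + a))) := by
    intro a
    rw [← S.E_τ n a]
    congr 1
    ext x
    have := DFunLike.congr_fun (hu a) x
    simp only [ContinuousMap.comp_apply] at this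
    simp [S.π_τ, this]
  have h2 : ∑ a, u * lift (S.π n) (fun η => ψ (η + a)) = (∑ η, ψ η) • u := by
    ext x
    simp only [ContinuousMap.coe_sum, Finset.sum_apply, ContinuousMap.mul_apply, lift_apply,
      ContinuousMap.smul_apply, smul_eq_mul]
    rw [← Finset.mul_sum, mul_comm]
    congr 1
    exact Fintype.sum_equiv (Equiv.addLeft (S.π n x)) _ _ fun _ => rfl
  have h3 : ∑ _a : (G n).J, S.E (u * lift (S.π n) ψ) = (∑ η, ψ η) * S.E u := by
    rw [Finset.sum_congr rfl fun a _ => h1 a, ← map_sum, h2, map_smul, smul_eq_mul]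
  rw [Finset.sum_const, Finset.card_univ, nsmul_eq_mul] at h3
  have h4 : (0 : ℝ) < Fintype.card (G n).J := by exact_mod_cast Fintype.card_pos
  rw [Fintype.expect_eq_sum_div_card]
  field_simp
  linarith

lemma inv_one (n : ℕ) : S.Inv n 1 := fun _ => rfl

lemma Inv.mul {n : ℕ} {u v : C(K, ℝ)} (hu : S.Inv n u) (hv : S.Inv n v) : S.Inv n (u * v) := by
  intro a
  rw [ContinuousMap.mul_comp, hu a, hv a]

lemma inv_lift {n n' : ℕ} (h : n' ≠ n) (ψ : (G n').J → ℝ) : S.Inv n (lift (S.π n') ψ) := by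
  intro a; ext x; simp [S.π_τ_ne n n' a x h]

lemma E_lift (n : ℕ) (ψ : (G n).J → ℝ) : S.E (lift (S.π n) ψ) = 𝔼 η, ψ η := by
  simpa [S.E_one] using S.E_mul_lift (S.inv_one n) ψ

/-- The number of points of the cube of level `n`. -/
def m (G : ∀ n, Gadget (β n)) (n : ℕ) : ℝ := Fintype.card (G n).J

lemma m_ge (n : ℕ) : 16 ≤ m G n := by
  have : 2 ^ 4 ≤ 2 ^ (G n).d := Nat.pow_le_pow_right (by norm_num) (G n).hd
  simp only [m, Fintype.card_fun, ZMod.card, Fintype.card_fin]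
  exact_mod_cast this

lemma expect_mul_single (n : ℕ) (ψ : (G n).J → ℝ) (η : (G n).J) :
    𝔼 η', (ψ * Pi.single η (1 : ℝ) : (G n).J → ℝ) η' = ψ η / m G n := by
  rw [Fintype.expect_eq_sum_div_card]
  simp [Pi.single_apply, m]

/-- Centered conditional expectation on the coordinate of level `n`. -/
noncomputable def dev (n : ℕ) : C(K, ℝ) →ₗ[ℝ] ((G n).J → ℝ) where
  toFun g η := m G n * S.E (g * lift (S.π n) (Pi.single η 1)) - S.E g
  map_add' g h := by ext η; simp [add_mul]; ring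
  map_smul' c g := by ext η; simp; ring

lemma dev_apply (n : ℕ) (g : C(K, ℝ)) (η : (G n).J) :
    S.dev n g η = m G n * S.E (g * lift (S.π n) (Pi.single η 1)) - S.E g := rfl

lemma dev_mul_lift {n : ℕ} {u : C(K, ℝ)} (hu : S.Inv n u) (ψ : (G n).J → ℝ) (η : (G n).J) :
    S.dev n (u * lift (S.π n) ψ) η = S.E u * (ψ η - 𝔼 η', ψ η') := by
  have := m_ge (G := G) n
  rw [dev_apply, mul_assoc, lift_mul, S.E_mul_lift hu, S.E_mul_lift hu, expect_mul_single]
  field_simp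

lemma dev_inv {n : ℕ} {u : C(K, ℝ)} (hu : S.Inv n u) : S.dev n u = 0 := by
  ext η
  have := S.dev_mul_lift hu 1 η
  simpa [lift_one] using this

lemma dev_mul_lift_ne {n n' : ℕ} (h : n' ≠ n) {u : C(K, ℝ)} (hu : S.Inv n u)
    (ψ : (G n).J → ℝ) : S.dev n' (u * lift (S.π n) ψ) = (𝔼 η', ψ η') • S.dev n' u := by
  ext η
  rw [Pi.smul_apply, dev_apply, dev_apply, mul_right_comm,
    S.E_mul_lift (Inv.mul S hu (S.inv_lift h _)), S.E_mul_lift hu, smul_eq_mul]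
  ring

lemma abs_dev_le (n : ℕ) (g : C(K, ℝ)) (η : (G n).J) : |S.dev n g η| ≤ 2 * ‖g‖ := by
  have h0 := m_ge (G := G) n
  have h1 := S.abs_E_mul_le g (lift (S.π n) (Pi.single η 1)) fun x => by
    simp only [lift_apply, Pi.single_apply]; split_ifs <;> norm_num
  have h2 : S.E (lift (S.π n) (Pi.single η 1)) = 1 / m G n := by
    rw [S.E_lift]; simpa using expect_mul_single n 1 η
  rw [h2] at h1
  have h3 : |m G n * S.E (g * lift (S.π n) (Pi.single η 1))| ≤ ‖g‖ := by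
    rw [abs_mul, abs_of_pos (by linarith)]
    calc _ ≤ m G n * (‖g‖ * (1 / m G n)) := by gcongr
      _ = _ := by field_simp
  rw [dev_apply]
  linarith [abs_sub (m G n * S.E (g * lift (S.π n) (Pi.single η 1))) (S.E g), S.abs_E_le g]

lemma E_mul_lift_gen (n : ℕ) (g : C(K, ℝ)) (ψ : (G n).J → ℝ) :
    S.E (g * lift (S.π n) ψ) = 𝔼 η, (S.dev n g η + S.E g) * ψ η := by
  have h0 := m_ge (G := G) n
  rw [lift_eq_sum, Finset.mul_sum, map_sum, Fintype.expect_eq_sum_div_card, Finset.sum_div]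
  refine Finset.sum_congr rfl fun η _ => ?_
  rw [mul_smul_comm, map_smul, smul_eq_mul, dev_apply]
  change _ = _ / m G n
  field_simp
  ring

lemma expect_dev (n : ℕ) (g : C(K, ℝ)) : 𝔼 η, S.dev n g η = 0 := by
  have := S.E_mul_lift_gen n g 1
  simpa [lift_one, Finset.expect_add_distrib] using this.symm

lemma bessel_dev (s : Finset ℕ) (g : C(K, ℝ)) :
    S.E g ^ 2 + ∑ n ∈ s, 𝔼 η, S.dev n g η ^ 2 ≤ ‖g‖ ^ 2 := by
  let Q : C(K, ℝ) →ₗ[ℝ] C(K, ℝ) →ₗ[ℝ] ℝ := (LinearMap.mul ℝ C(K, ℝ)).compr₂ S.E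
  have hQ : ∀ u v, Q u v = S.E (u * v) := fun _ _ => rfl
  have hd : ∀ n, Q (lift (S.π n) (S.dev n g)) (lift (S.π n) (S.dev n g)) =
      𝔼 η, S.dev n g η ^ 2 := by
    intro n
    rw [hQ, lift_mul, S.E_lift]
    simp [sq]
  have h := bessel Q (fun x y => by rw [hQ, hQ, mul_comm])
    (fun x => S.E_nonneg _ fun y => mul_self_nonneg _) s (fun n => lift (S.π n) (S.dev n g))
    (g - S.E g • 1)
    (fun i _ j _ hij => by
      rw [hQ, S.E_mul_lift (S.inv_lift hij _), S.expect_dev, mul_zero])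
    (fun i _ => by
      rw [hd, hQ, sub_mul, map_sub, smul_mul_assoc, one_mul, map_smul, S.E_lift, S.expect_dev,
        S.E_mul_lift_gen]
      simp only [add_mul, Finset.expect_add_distrib, ← Finset.mul_expect, S.expect_dev, sq]
      simp)
  simp only [hd] at h
  have h2 : Q (g - S.E g • 1) (g - S.E g • 1) = S.E (g * g) - S.E g ^ 2 := by
    simp only [map_sub, map_smul, LinearMap.sub_apply, LinearMap.smul_apply, hQ, mul_one, one_mul,
      S.E_one, smul_eq_mul]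
    ring
  have h3 : S.E (g * g) ≤ ‖g‖ ^ 2 :=
    (le_abs_self _).trans ((S.abs_E_le _).trans (by rw [sq]; exact norm_mul_le g g))
  linarith

end Setup

end Pool.Agent.MP_ce1e3b_an
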